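import Pool.Agent.Helper59.TG.Core5

namespace Helper59.TG

open Set Filter Topology
open scoped NNReal

variable {n : ℕ}

section
variable {g : (Fin n → ℝ) → (Fin n → ℝ) →L[ℝ] (Fin n → ℝ) →L[ℝ] ℝ}
    {A : Set (Fin n → ℝ)} {S : (Fin n → ℝ) × (Fin n → ℝ) → ℝ}
    {P : (Fin n → ℝ) → (Fin n → ℝ)} {h : (Fin n → ℝ) → ℝ}

/-- A complete integral gives the technical data. -/
theorem IsCompleteIntegral.core (hg : IsTorusMetric g) (hA : IsOpen A)
    (H : IsCompleteIntegral g A S P h) :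
    Core g A (fun z => (fderiv ℝ S z).comp (ContinuousLinearMap.inl ℝ _ _))
      (fun x a => S (x, a)) (fun x a => (fderiv ℝ S (x, a)).comp (ContinuousLinearMap.inr ℝ _ _))
      P (fderiv ℝ P) h := by
  have hopen : IsOpen ((univ : Set (Fin n → ℝ)) ×ˢ A) := isOpen_univ.prod hA
  have hmem : ∀ a ∈ A, ∀ x : Fin n → ℝ, (univ : Set (Fin n → ℝ)) ×ˢ A ∈ 𝓝 (x, a) :=
    fun a ha x => hopen.mem_nhds ⟨mem_univ _, ha⟩
  have hS1 : ∀ a ∈ A, ∀ x, HasFDerivAt S (fderiv ℝ S (x, a)) (x, a) := fun a ha x =>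
    ((H.smooth.contDiffAt (hmem a ha x)).differentiableAt two_ne_zero).hasFDerivAt
  have hfd : ContDiffOn ℝ 1 (fderiv ℝ S) (univ ×ˢ A) :=
    H.smooth.fderiv_of_isOpen hopen (by norm_num)
  have hS2 : ∀ a ∈ A, ∀ x, HasFDerivAt (fderiv ℝ S) (fderiv ℝ (fderiv ℝ S) (x, a)) (x, a) :=
    fun a ha x => ((hfd.contDiffAt (hmem a ha x)).differentiableAt one_ne_zero).hasFDerivAt
  have hsymm : ∀ a ∈ A, ∀ x u w, fderiv ℝ (fderiv ℝ S) (x, a) u w =
      fderiv ℝ (fderiv ℝ S) (x, a) w u := by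
    intro a ha x u w
    refine second_derivative_symmetric_of_eventually (f := S) (f' := fderiv ℝ S) ?_
      (hS2 a ha x) u w
    filter_upwards [hmem a ha x] with z hz
    exact hS1 z.2 hz.2 z.1
  have hPe : ∀ a ∈ A, P a = fun i => S (iv (Pi.single i 1), a) - S (0, a) := by
    intro a ha
    ext i
    have h1 := H.periods a ha 0 (Pi.single i 1)
    rw [zero_add] at h1
    rw [h1]
    have h2 : ∑ j, P a j * (((Pi.single i 1 : Fin n → ℤ) j : ℤ) : ℝ) = P a i := by
      rw [Finset.sum_eq_single i]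
      · simp
      · intro j _ hj; simp [hj]
      · simp
    rw [h2]; ring
  have hSa : ∀ a ∈ A, ∀ x, HasFDerivAt (fun b => S (x, b))
      ((fderiv ℝ S (x, a)).comp (ContinuousLinearMap.inr ℝ _ _)) a := fun a ha x =>
    HasFDerivAt.comp a (hS1 a ha x) (hasFDerivAt_prodMk_right x a)
  have hPd : ∀ a ∈ A, HasFDerivAt P (fderiv ℝ P a) a := by
    intro a ha
    have h1 : DifferentiableAt ℝ (fun b => fun i => S (iv (Pi.single i 1), b) - S (0, b)) a := by
      rw [differentiableAt_pi]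
      intro i
      exact ((hSa a ha _).sub (hSa a ha _)).differentiableAt
    have h2 : P =ᶠ[𝓝 a] fun b => fun i => S (iv (Pi.single i 1), b) - S (0, b) := by
      filter_upwards [hA.mem_nhds ha] with b hb using hPe b hb
    exact (h1.congr_of_eventuallyEq h2).hasFDerivAt
  refine
    { metric := hg
      isOpen := hA
      p_smooth := ?_
      S_deriv := ?_
      S_per := H.periods
      P_deriv := hPd
      P_inj := H.periodsJacobian
      energy := ?_
      energy_pos := H.energy_pos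
      p_inj := ?_
      Φ_deriv := ?_
      Φ_per := ?_ }
  · exact hfd.clm_comp contDiffOn_const
  · intro a ha x
    exact HasFDerivAt.comp x (hS1 a ha x) (hasFDerivAt_prodMk_left x a)
  · intro a ha x
    obtain ⟨X, hX1, hX2⟩ := H.hamiltonJacobi a ha x
    have h1 : (fderiv ℝ S (x, a)).comp (ContinuousLinearMap.inl ℝ (Fin n → ℝ) (Fin n → ℝ))
        = g x X := by
      ext1 w
      rw [hX1 w]
      rfl
    simp only [h1, (hg.isInvertible x).inverse_apply_self]
    linarith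
  · intro a ha x b hb
    refine H.hessian a ha x b fun w => ?_
    have h1 : HasFDerivAt (fun z => (fderiv ℝ S z).comp
        (ContinuousLinearMap.inl ℝ (Fin n → ℝ) (Fin n → ℝ)))
        (((ContinuousLinearMap.compL ℝ (Fin n → ℝ) ((Fin n → ℝ) × (Fin n → ℝ)) ℝ).flip
          (ContinuousLinearMap.inl ℝ (Fin n → ℝ) (Fin n → ℝ))).comp
          (fderiv ℝ (fderiv ℝ S) (x, a))) (x, a) :=
      (((ContinuousLinearMap.compL ℝ (Fin n → ℝ) ((Fin n → ℝ) × (Fin n → ℝ)) ℝ).flip
          (ContinuousLinearMap.inl ℝ (Fin n → ℝ) (Fin n → ℝ))).hasFDerivAt).comp (x, a)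
        (hS2 a ha x)
    rw [h1.fderiv] at hb
    have h2 := congrArg (fun f : (Fin n → ℝ) →L[ℝ] ℝ => f w) hb
    simpa using h2
  · intro a ha x
    have h1 : HasFDerivAt (fun z => (fderiv ℝ S z).comp
        (ContinuousLinearMap.inl ℝ (Fin n → ℝ) (Fin n → ℝ)))
        (((ContinuousLinearMap.compL ℝ (Fin n → ℝ) ((Fin n → ℝ) × (Fin n → ℝ)) ℝ).flip
          (ContinuousLinearMap.inl ℝ (Fin n → ℝ) (Fin n → ℝ))).comp
          (fderiv ℝ (fderiv ℝ S) (x, a))) (x, a) :=
      (((ContinuousLinearMap.compL ℝ (Fin n → ℝ) ((Fin n → ℝ) × (Fin n → ℝ)) ℝ).flip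
          (ContinuousLinearMap.inl ℝ (Fin n → ℝ) (Fin n → ℝ))).hasFDerivAt).comp (x, a)
        (hS2 a ha x)
    have h2 : HasFDerivAt (fun y => (fderiv ℝ S (y, a)).comp
        (ContinuousLinearMap.inr ℝ (Fin n → ℝ) (Fin n → ℝ)))
        ((((ContinuousLinearMap.compL ℝ (Fin n → ℝ) ((Fin n → ℝ) × (Fin n → ℝ)) ℝ).flip
          (ContinuousLinearMap.inr ℝ (Fin n → ℝ) (Fin n → ℝ))).comp
          (fderiv ℝ (fderiv ℝ S) (x, a))).comp
            (ContinuousLinearMap.inl ℝ (Fin n → ℝ) (Fin n → ℝ))) x := by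
      have h3 : HasFDerivAt (fun z => (fderiv ℝ S z).comp
        (ContinuousLinearMap.inr ℝ (Fin n → ℝ) (Fin n → ℝ)))
        (((ContinuousLinearMap.compL ℝ (Fin n → ℝ) ((Fin n → ℝ) × (Fin n → ℝ)) ℝ).flip
          (ContinuousLinearMap.inr ℝ (Fin n → ℝ) (Fin n → ℝ))).comp
          (fderiv ℝ (fderiv ℝ S) (x, a))) (x, a) :=
        (((ContinuousLinearMap.compL ℝ (Fin n → ℝ) ((Fin n → ℝ) × (Fin n → ℝ)) ℝ).flip
          (ContinuousLinearMap.inr ℝ (Fin n → ℝ) (Fin n → ℝ))).hasFDerivAt).comp (x, a)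
          (hS2 a ha x)
      have h6 : HasFDerivAt (fun y : Fin n → ℝ => (y, a))
        (ContinuousLinearMap.inl ℝ (Fin n → ℝ) (Fin n → ℝ)) x := hasFDerivAt_prodMk_left x a
      exact HasFDerivAt.comp (f := fun y : Fin n → ℝ => (y, a)) x h3 h6
    refine h2.congr_fderiv ?_
    rw [h1.fderiv]
    ext w b
    simp only [ContinuousLinearMap.comp_apply, ContinuousLinearMap.flip_apply,
      ContinuousLinearMap.compL_apply]
    exact hsymm a ha x _ _
  · intro a ha x m b
    have h1 : HasFDerivAt (fun c => S (x + iv m, c))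
        ((fderiv ℝ S (x + iv m, a)).comp (ContinuousLinearMap.inr ℝ _ _)) a := hSa a ha _
    have h2 : HasFDerivAt (fun c => S (x, c) + dotL (iv m) (P c))
        ((fderiv ℝ S (x, a)).comp (ContinuousLinearMap.inr ℝ _ _) +
          (dotL (iv m)).comp (fderiv ℝ P a)) a :=
      (hSa a ha x).add ((dotL (iv m)).hasFDerivAt.comp a (hPd a ha))
    have h3 : (fun c => S (x + iv m, c)) =ᶠ[𝓝 a] fun c => S (x, c) + dotL (iv m) (P c) := by
      filter_upwards [hA.mem_nhds ha] with c hc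
      rw [H.periods c hc x m, dotL_apply]
      congr 1
      refine Finset.sum_congr rfl fun i _ => ?_
      rw [mul_comm]; rfl
    have h4 := h1.unique (h2.congr_of_eventuallyEq h3)
    have h5 := congrArg (fun f : (Fin n → ℝ) →L[ℝ] ℝ => f b) h4
    simp only [add_apply, ContinuousLinearMap.comp_apply, dotL_apply] at h5 ⊢
    rw [h5]
    congr 1
    refine Finset.sum_congr rfl fun i _ => ?_
    rw [mul_comm]; rfl

/-- Main theorem, general form. -/
theorem IsCompleteIntegral.main (hg : IsTorusMetric g) (hA : IsOpen A)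
    (H : IsCompleteIntegral g A S P h) {a : Fin n → ℝ} (ha : a ∈ A) (x X : Fin n → ℝ)
    (hX : ∀ w, g x X w = fderiv ℝ S (x, a) (w, 0)) {ε : ℝ} (hε : 0 < ε) :
    ∃ γ v : ℝ → (Fin n → ℝ), IsClosedGeodesic g γ v ∧ γ 0 = x ∧ ‖v 0 - X‖ < ε := by
  obtain ⟨γ, v, h1, h2, h3⟩ := (H.core hg hA).main ha x hε
  refine ⟨γ, v, h1, h2, ?_⟩
  have h4 : vel g (fun z => (fderiv ℝ S z).comp
      (ContinuousLinearMap.inl ℝ (Fin n → ℝ) (Fin n → ℝ))) (x, a) = X := by
    unfold vel
    have h5 : (fderiv ℝ S (x, a)).comp (ContinuousLinearMap.inl ℝ (Fin n → ℝ) (Fin n → ℝ))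
        = g x X := by
      ext1 w
      rw [hX w]
      rfl
    simp only [h5, (hg.isInvertible x).inverse_apply_self]
  rw [h4, dist_eq_norm] at h3
  exact h3

end

end Helper59.TG
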