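import Pool.Agent.Helper59.TG.Separated

namespace Helper59.TG

open Set Filter Topology

variable {n : ℕ}

section
variable {g : (Fin n → ℝ) → (Fin n → ℝ) →L[ℝ] (Fin n → ℝ) →L[ℝ] ℝ}

/-- The dual metric at the point with `i₀`-th coordinate `s`. -/
noncomputable def cof (g : (Fin n → ℝ) → (Fin n → ℝ) →L[ℝ] (Fin n → ℝ) →L[ℝ] ℝ) (i₀ : Fin n)
    (s : ℝ) (p r : (Fin n → ℝ) →L[ℝ] ℝ) : ℝ := p ((g (Pi.single i₀ s)).inverse r)

/-- The constant part of the momentum. -/
noncomputable def pcirc (i₀ : Fin n) (a : Fin n → ℝ) : (Fin n → ℝ) →L[ℝ] ℝ :=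
  dotB (a - a i₀ • (Pi.single i₀ 1 : Fin n → ℝ))

lemma contDiff_pcirc (i₀ : Fin n) : ContDiff ℝ 1 (pcirc i₀) := by
  unfold pcirc
  refine (dotB (n := n)).contDiff.comp ?_
  fun_prop

lemma contDiff_inv (hg : IsTorusMetric g) (i₀ : Fin n) :
    ContDiff ℝ 1 (fun s : ℝ => (g (Pi.single i₀ s)).inverse) := by
  rw [contDiff_iff_contDiffAt]
  intro s
  have h2 : ContDiffAt ℝ 1 ContinuousLinearMap.inverse (g (Pi.single i₀ s)) :=
    (hg.isInvertible _).contDiffAt_map_inverse
  have h3 : ContDiffAt ℝ 1 (fun s : ℝ => g (Pi.single i₀ s)) s := by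
    have h4 : ContDiff ℝ 1 (fun s : ℝ => (Pi.single i₀ s : Fin n → ℝ)) := by
      have h5 : (fun s : ℝ => (Pi.single i₀ s : Fin n → ℝ)) =
          fun s => s • (Pi.single i₀ 1 : Fin n → ℝ) := by
        ext s i
        by_cases hi : i = i₀
        · subst hi; simp
        · simp [hi]
      rw [h5]
      fun_prop
    exact (hg.smooth.comp h4).contDiffAt
  exact ContDiffAt.comp s h2 h3

lemma cof_pos (hg : IsTorusMetric g) (i₀ : Fin n) (s : ℝ) (p : (Fin n → ℝ) →L[ℝ] ℝ)
    (hp : p ≠ 0) : 0 < cof g i₀ s p p := by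
  have h1 : cof g i₀ s p p = g (Pi.single i₀ s) ((g (Pi.single i₀ s)).inverse p)
      ((g (Pi.single i₀ s)).inverse p) := by
    rw [hg.apply_inverse]; rfl
  rw [h1]
  apply hg.pos
  intro h0
  apply hp
  have := hg.apply_inverse (Pi.single i₀ s) p
  rw [h0, map_zero] at this
  exact this.symm

lemma cof_nonneg (hg : IsTorusMetric g) (i₀ : Fin n) (s : ℝ) (p : (Fin n → ℝ) →L[ℝ] ℝ) :
    0 ≤ cof g i₀ s p p := by
  by_cases hp : p = 0
  · subst hp; simp [cof]
  · exact (cof_pos hg i₀ s p hp).le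

/-- The root of the quadratic equation. -/
noncomputable def root (g : (Fin n → ℝ) → (Fin n → ℝ) →L[ℝ] (Fin n → ℝ) →L[ℝ] ℝ) (i₀ : Fin n)
    (s : ℝ) (a : Fin n → ℝ) : ℝ :=
  (-(cof g i₀ s (ContinuousLinearMap.proj i₀) (pcirc i₀ a)) +
    Real.sqrt ((cof g i₀ s (ContinuousLinearMap.proj i₀) (pcirc i₀ a)) ^ 2 -
      cof g i₀ s (ContinuousLinearMap.proj i₀) (ContinuousLinearMap.proj i₀) *
      (cof g i₀ s (pcirc i₀ a) (pcirc i₀ a) - 2 * a i₀))) /
    cof g i₀ s (ContinuousLinearMap.proj i₀) (ContinuousLinearMap.proj i₀)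

lemma proj_ne_zero (i₀ : Fin n) :
    (ContinuousLinearMap.proj i₀ : (Fin n → ℝ) →L[ℝ] ℝ) ≠ 0 := by
  intro h
  have := congrArg (fun f : (Fin n → ℝ) →L[ℝ] ℝ => f (Pi.single i₀ 1)) h
  simp at this

lemma disc_pos (hg : IsTorusMetric g) (i₀ : Fin n) (s : ℝ) (a : Fin n → ℝ)
    (ha : cof g i₀ s (pcirc i₀ a) (pcirc i₀ a) < 2 * a i₀) :
    0 < (cof g i₀ s (ContinuousLinearMap.proj i₀) (pcirc i₀ a)) ^ 2 -
      cof g i₀ s (ContinuousLinearMap.proj i₀) (ContinuousLinearMap.proj i₀) *
      (cof g i₀ s (pcirc i₀ a) (pcirc i₀ a) - 2 * a i₀) := by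
  have h1 := cof_pos hg i₀ s _ (proj_ne_zero i₀)
  nlinarith [sq_nonneg (cof g i₀ s (ContinuousLinearMap.proj i₀) (pcirc i₀ a))]

/-- Closed geodesics through every point for metrics which depend on one coordinate only. -/
theorem oneCoord (hg : IsTorusMetric g) (i₀ : Fin n) (hdep : ∀ x y, x i₀ = y i₀ → g x = g y)
    (x : Fin n → ℝ) : ∃ γ v : ℝ → (Fin n → ℝ), IsClosedGeodesic g γ v ∧ γ 0 = x := by
  set A : Set (Fin n → ℝ) := {a | ∀ s, cof g i₀ s (pcirc i₀ a) (pcirc i₀ a) < 2 * a i₀} with hA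
  have hgx : ∀ x : Fin n → ℝ, g x = g (Pi.single i₀ (x i₀)) := fun x =>
    hdep _ _ (by simp)
  have hGper : ∀ s : ℝ, g (Pi.single i₀ (s + 1)) = g (Pi.single i₀ s) := by
    intro s
    have h1 : (Pi.single i₀ (s + 1) : Fin n → ℝ) =
        Pi.single i₀ s + iv (Pi.single i₀ 1) := by
      ext i
      by_cases hi : i = i₀
      · subst hi; simp [iv]
      · simp [iv, hi]
    rw [h1, hg.periodic]
  have hcper : ∀ s p r, cof g i₀ (s + 1) p r = cof g i₀ s p r := by
    intro s p r
    simp only [cof, hGper]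
  have hinv := contDiff_inv hg i₀
  -- smoothness
  have hk : ContDiff ℝ 1 (fun z : ℝ × (Fin n → ℝ) =>
      cof g i₀ z.1 (pcirc i₀ z.2) (pcirc i₀ z.2)) := by
    have h1 : ContDiff ℝ 1 (fun z : ℝ × (Fin n → ℝ) => pcirc i₀ z.2) :=
      (contDiff_pcirc i₀).comp contDiff_snd
    exact h1.clm_apply ((hinv.comp contDiff_fst).clm_apply h1)
  have hb : ContDiff ℝ 1 (fun z : ℝ × (Fin n → ℝ) =>
      cof g i₀ z.1 (ContinuousLinearMap.proj i₀) (pcirc i₀ z.2)) := by
    have h1 : ContDiff ℝ 1 (fun z : ℝ × (Fin n → ℝ) => pcirc i₀ z.2) :=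
      (contDiff_pcirc i₀).comp contDiff_snd
    exact (ContinuousLinearMap.proj (R := ℝ) (φ := fun _ : Fin n => ℝ) i₀).contDiff.comp
      ((hinv.comp contDiff_fst).clm_apply h1)
  have hal : ContDiff ℝ 1 (fun z : ℝ × (Fin n → ℝ) =>
      cof g i₀ z.1 (ContinuousLinearMap.proj i₀) (ContinuousLinearMap.proj i₀)) := by
    exact (ContinuousLinearMap.proj (R := ℝ) (φ := fun _ : Fin n => ℝ) i₀).contDiff.comp
      ((hinv.comp contDiff_fst).clm_apply contDiff_const)
  have ha0 : ContDiff ℝ 1 (fun z : ℝ × (Fin n → ℝ) => z.2 i₀) := by fun_prop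
  have hAo : IsOpen A := by
    rw [isOpen_iff_mem_nhds]
    intro a ha
    have h1 : ∀ᶠ b in 𝓝 a, ∀ s ∈ Icc (0 : ℝ) 1,
        cof g i₀ s (pcirc i₀ b) (pcirc i₀ b) < 2 * b i₀ := by
      refine (isCompact_Icc (a := (0 : ℝ)) (b := 1)).eventually_forall_of_forall_eventually
        (x₀ := a) (P := fun b s => cof g i₀ s (pcirc i₀ b) (pcirc i₀ b) < 2 * b i₀)
        fun s _ => ?_
      have h2 : Continuous (fun z : (Fin n → ℝ) × ℝ =>
          cof g i₀ z.2 (pcirc i₀ z.1) (pcirc i₀ z.1)) :=
        hk.continuous.comp continuous_swap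
      have h3 : Continuous (fun z : (Fin n → ℝ) × ℝ => 2 * z.1 i₀) := by fun_prop
      exact (isOpen_lt h2 h3).mem_nhds (ha s)
    filter_upwards [h1] with b hb s
    have h3 := hb (Int.fract s) ⟨Int.fract_nonneg s, (Int.fract_lt_one s).le⟩
    have h4 : cof g i₀ (Int.fract s) (pcirc i₀ b) (pcirc i₀ b) =
        cof g i₀ s (pcirc i₀ b) (pcirc i₀ b) := by
      have hp : Function.Periodic (fun s => cof g i₀ s (pcirc i₀ b) (pcirc i₀ b)) 1 :=
        fun s => hcper s _ _
      have h5 := hp.sub_int_mul_eq ⌊s⌋ (x := s)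
      rw [mul_one] at h5
      exact h5
    rwa [h4] at h3
  have hAne : (Pi.single i₀ 1 : Fin n → ℝ) ∈ A := by
    intro s
    have h1 : pcirc i₀ (Pi.single i₀ 1 : Fin n → ℝ) = 0 := by
      simp [pcirc]
    rw [h1]
    simp [cof]
  -- derivative in the direction of the energy
  have H : IsSeparated g A (fun i s a => if i = i₀ then root g i₀ s a else a i)
      (fun a => a i₀) := by
    have hroot : ContDiffOn ℝ 1 (fun z : ℝ × (Fin n → ℝ) => root g i₀ z.1 z.2) (univ ×ˢ A) := by
      unfold root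
      refine ContDiffOn.div ?_ hal.contDiffOn ?_
      · refine hb.contDiffOn.neg.add (ContDiffOn.sqrt ?_ ?_)
        · exact ((hb.pow 2).sub (hal.mul (hk.sub (contDiff_const.mul ha0)))).contDiffOn
        · rintro ⟨s, a⟩ ⟨_, ha⟩
          exact (disc_pos hg i₀ s a (ha s)).ne'
      · rintro ⟨s, a⟩ _
        exact (cof_pos hg i₀ s _ (proj_ne_zero i₀)).ne'
    refine ⟨?_, ?_, ?_, ?_, ?_⟩
    · intro i
      by_cases hi : i = i₀
      · simp only [hi, if_true]; exact hroot
      · simp only [hi, if_false]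
        have : ContDiff ℝ 1 (fun z : ℝ × (Fin n → ℝ) => z.2 i) := by fun_prop
        exact this.contDiffOn
    · intro i a _ s
      split_ifs
      · simp only [root, hcper]
      · rfl
    · intro a ha x X hX
      set s := x i₀ with hs
      set w := root g i₀ s a with hw
      have hp : g x X = pcirc i₀ a + w • ContinuousLinearMap.proj i₀ := by
        ext1 u
        rw [hX u]
        simp only [add_apply, smul_apply, ContinuousLinearMap.proj_apply, smul_eq_mul, pcirc,
          dotB_apply, Pi.sub_apply, Pi.smul_apply]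
        have h1 : ∀ i, (if i = i₀ then root g i₀ (x i) a else a i) * u i =
            (a i - a i₀ * (Pi.single i₀ 1 : Fin n → ℝ) i) * u i +
              (if i = i₀ then w * u i₀ else 0) := by
          intro i
          by_cases hi : i = i₀
          · subst hi; simp [hw, hs]
          · simp [hi]
        simp only [h1]
        rw [Finset.sum_add_distrib]
        simp
      have hXe : X = (g x).inverse (pcirc i₀ a + w • ContinuousLinearMap.proj i₀) := by
        rw [← hp, (hg.isInvertible x).inverse_apply_self]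
      have h2 : g x X X = cof g i₀ s (pcirc i₀ a) (pcirc i₀ a) +
          2 * w * cof g i₀ s (ContinuousLinearMap.proj i₀) (pcirc i₀ a) +
          w ^ 2 * cof g i₀ s (ContinuousLinearMap.proj i₀) (ContinuousLinearMap.proj i₀) := by
        rw [hp, hXe, hgx x]
        have h3 : cof g i₀ s (pcirc i₀ a) (ContinuousLinearMap.proj i₀) =
            cof g i₀ s (ContinuousLinearMap.proj i₀) (pcirc i₀ a) := hg.inverse_symm _ _ _
        simp only [cof, hs] at h3 ⊢
        simp only [map_add, map_smul, add_apply, smul_apply, smul_eq_mul, h3]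
        ring
      rw [h2]
      set al := cof g i₀ s (ContinuousLinearMap.proj i₀) (ContinuousLinearMap.proj i₀) with hal'
      set be := cof g i₀ s (ContinuousLinearMap.proj i₀) (pcirc i₀ a) with hbe
      set ka := cof g i₀ s (pcirc i₀ a) (pcirc i₀ a) with hka
      have halp : 0 < al := cof_pos hg i₀ s _ (proj_ne_zero i₀)
      have hdisc : 0 < be ^ 2 - al * (ka - 2 * a i₀) := disc_pos hg i₀ s a (ha s)
      have hsq := Real.sq_sqrt hdisc.le
      set r := Real.sqrt (be ^ 2 - al * (ka - 2 * a i₀)) with hr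
      have hwv : w * al = -be + r := by
        rw [hw]; unfold root; rw [div_mul_cancel₀ _ halp.ne']
      have h4 : al * (ka + 2 * w * be + w ^ 2 * al) = al * (2 * a i₀) := by
        have h5 : al * (ka + 2 * w * be + w ^ 2 * al) = al * ka + 2 * (w * al) * be + (w * al) ^ 2 := by
          ring
        rw [h5, hwv]
        nlinarith [hsq]
      have h6 : ka + 2 * w * be + w ^ 2 * al = 2 * a i₀ := mul_left_cancel₀ halp.ne' h4
      rw [h6]; ring
    · intro a ha
      have h1 := ha 0
      have h2 := cof_nonneg hg i₀ 0 (pcirc i₀ a)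
      linarith
    · intro a ha x b hbz
      have h1 : ∀ i, i ≠ i₀ → b i = 0 := by
        intro i hi
        have h2 := hbz i
        simp only [hi, if_false] at h2
        have h3 : HasFDerivAt (fun a : Fin n → ℝ => a i)
            (ContinuousLinearMap.proj (R := ℝ) (φ := fun _ : Fin n => ℝ) i) a :=
          (ContinuousLinearMap.proj (R := ℝ) (φ := fun _ : Fin n => ℝ) i).hasFDerivAt
        rw [h3.fderiv] at h2
        exact h2
      have hbe : b = b i₀ • (Pi.single i₀ 1 : Fin n → ℝ) := by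
        ext i
        by_cases hi : i = i₀
        · subst hi; simp
        · rw [h1 i hi]; simp [hi]
      have h2 := hbz i₀
      simp only [if_true] at h2
      set s := x i₀ with hs
      have hdiff : HasFDerivAt (root g i₀ s) (fderiv ℝ (root g i₀ s) a) a := by
        have h3 : ContDiffAt ℝ 1 (fun z : ℝ × (Fin n → ℝ) => root g i₀ z.1 z.2) (s, a) :=
          hroot.contDiffAt ((isOpen_univ.prod hAo).mem_nhds ⟨mem_univ _, ha⟩)
        have h4 : ContDiffAt ℝ 1 (fun b : Fin n → ℝ => root g i₀ s b) a :=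
          ContDiffAt.comp (f := fun b : Fin n → ℝ => (s, b)) a h3
            (contDiffAt_const.prodMk contDiffAt_id)
        exact (h4.differentiableAt one_ne_zero).hasFDerivAt
      set al := cof g i₀ s (ContinuousLinearMap.proj i₀) (ContinuousLinearMap.proj i₀) with hal'
      set be := cof g i₀ s (ContinuousLinearMap.proj i₀) (pcirc i₀ a) with hbe'
      set ka := cof g i₀ s (pcirc i₀ a) (pcirc i₀ a) with hka
      have halp : 0 < al := cof_pos hg i₀ s _ (proj_ne_zero i₀)
      have hdisc : 0 < be ^ 2 - al * (ka - 2 * a i₀) := disc_pos hg i₀ s a (ha s)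
      -- derivative along the line
      have hline : HasDerivAt (fun t : ℝ => a + t • (Pi.single i₀ 1 : Fin n → ℝ))
          (Pi.single i₀ 1 : Fin n → ℝ) 0 := by
        have := ((hasDerivAt_id (0 : ℝ)).smul_const (Pi.single i₀ 1 : Fin n → ℝ)).const_add a
        simpa using this
      have h3 : HasDerivAt (fun t : ℝ => root g i₀ s (a + t • (Pi.single i₀ 1 : Fin n → ℝ)))
          (fderiv ℝ (root g i₀ s) a (Pi.single i₀ 1)) 0 := by
        have h4 : HasFDerivAt (root g i₀ s) (fderiv ℝ (root g i₀ s) a)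
            (a + (0 : ℝ) • (Pi.single i₀ 1 : Fin n → ℝ)) := by
          simpa using hdiff
        exact h4.comp_hasDerivAt (0 : ℝ) hline
      have hpc : ∀ t : ℝ, pcirc i₀ (a + t • (Pi.single i₀ 1 : Fin n → ℝ)) = pcirc i₀ a := by
        intro t
        unfold pcirc
        congr 1
        ext i
        by_cases hi : i = i₀
        · subst hi; simp
        · simp [hi]
      have h5 : (fun t : ℝ => root g i₀ s (a + t • (Pi.single i₀ 1 : Fin n → ℝ))) =
          fun t => (-be + Real.sqrt (be ^ 2 - al * (ka - 2 * (a i₀ + t)))) / al := by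
        ext t
        simp only [root, hpc, ← hal', ← hbe', ← hka]
        simp
      have h6 : HasDerivAt (fun t : ℝ => (-be + Real.sqrt (be ^ 2 - al * (ka - 2 * (a i₀ + t)))) / al)
          ((al * 2 / (2 * Real.sqrt (be ^ 2 - al * (ka - 2 * (a i₀ + 0))))) / al) 0 := by
        have h7 : HasDerivAt (fun t : ℝ => be ^ 2 - al * (ka - 2 * (a i₀ + t))) (al * 2) 0 := by
          have h8 : HasDerivAt (fun t : ℝ => 2 * (a i₀ + t)) 2 0 := by
            have := ((hasDerivAt_id (0 : ℝ)).const_add (a i₀)).const_mul 2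
            simpa using this
          have h9 := ((h8.const_sub ka).const_mul al).const_sub (be ^ 2)
          have h10 : -(al * -2) = al * 2 := by ring
          rw [h10] at h9
          exact h9
        have h8 := h7.sqrt (by rw [add_zero]; exact hdisc.ne')
        exact (h8.const_add (-be)).div_const al
      rw [h5] at h3
      have h7 := h3.unique h6
      rw [hbe, map_smul, smul_eq_mul, h7] at h2
      have h8 : 0 < (al * 2 / (2 * Real.sqrt (be ^ 2 - al * (ka - 2 * (a i₀ + 0))))) / al := by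
        have : 0 < Real.sqrt (be ^ 2 - al * (ka - 2 * (a i₀ + 0))) := by
          rw [add_zero]; exact Real.sqrt_pos.mpr hdisc
        positivity
      rcases mul_eq_zero.mp h2 with h9 | h9
      · rw [hbe, h9, zero_smul]
      · exact absurd h9 h8.ne'
  exact H.main hg hAo ⟨_, hAne⟩ x

end

end Helper59.TG
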