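import Pool.Agent.Helper59.TG.Positive

namespace Helper59.TG

open Set Filter Topology

variable {n : ℕ}

lemma isOpen_pos (φ : Fin n → Fin n → ℝ → ℝ) (hc : ∀ i j, Continuous (φ i j))
    (hper : ∀ i j s, φ i j (s + 1) = φ i j s) :
    IsOpen {a : Fin n → ℝ | ∀ i s, 0 < ∑ j, φ i j s * a j} := by
  rw [isOpen_iff_mem_nhds]
  intro a ha
  have h1 : ∀ i, ∀ᶠ b in 𝓝 a, ∀ s ∈ Icc (0 : ℝ) 1, 0 < ∑ j, φ i j s * b j := by
    intro i
    refine (isCompact_Icc (a := (0 : ℝ)) (b := 1)).eventually_forall_of_forall_eventually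
      (x₀ := a) (P := fun b s => 0 < ∑ j, φ i j s * b j) fun s _ => ?_
    have h2 : Continuous (fun z : (Fin n → ℝ) × ℝ => ∑ j, φ i j z.2 * z.1 j) := by
      refine continuous_finsetSum _ fun j _ => ?_
      exact ((hc i j).comp continuous_snd).mul ((continuous_apply j).comp continuous_fst)
    exact h2.continuousAt.eventually (lt_mem_nhds (ha i s))
  have h2 : ∀ᶠ b in 𝓝 a, ∀ i, ∀ s ∈ Icc (0 : ℝ) 1, 0 < ∑ j, φ i j s * b j :=
    Filter.eventually_all.mpr h1
  filter_upwards [h2] with b hb i s
  have h3 := hb i (Int.fract s) ⟨Int.fract_nonneg s, (Int.fract_lt_one s).le⟩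
  have h4 : ∀ j, φ i j (Int.fract s) = φ i j s := by
    intro j
    have hp : Function.Periodic (φ i j) 1 := hper i j
    rw [show Int.fract s = s - ⌊s⌋ * 1 by rw [mul_one]; rfl]
    exact hp.sub_int_mul_eq ⌊s⌋
  simpa only [h4] using h3

/-- Closed geodesics through every point for Staeckel metrics. -/
theorem stackel {g : (Fin n → ℝ) → (Fin n → ℝ) →L[ℝ] (Fin n → ℝ) →L[ℝ] ℝ}
    (hg : IsTorusMetric g) (φ : Fin n → Fin n → ℝ → ℝ) (hc : ∀ i j, ContDiff ℝ 1 (φ i j))
    (hper : ∀ i j s, φ i j (s + 1) = φ i j s)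
    (hdet : ∀ x : Fin n → ℝ, (Matrix.of fun i j => φ i j (x i)).det ≠ 0) (j₀ : Fin n)
    (G : Fin n → (Fin n → ℝ) → ℝ) (hG : ∀ i x, 0 < G i x)
    (hG2 : ∀ j x, ∑ i, φ i j (x i) / G i x = if j = j₀ then 1 else 0)
    (hgG : ∀ x v w, g x v w = ∑ i, G i x * v i * w i) (x : Fin n → ℝ) :
    ∃ γ v : ℝ → (Fin n → ℝ), IsClosedGeodesic g γ v ∧ γ 0 = x := by
  set A : Set (Fin n → ℝ) := {a | ∀ i s, 0 < ∑ j, φ i j s * a j} with hA
  have hAo : IsOpen A := isOpen_pos φ (fun i j => (hc i j).continuous) hper
  obtain ⟨a0, ha0⟩ := exists_positive φ (fun i j => (hc i j).continuous) hper hdet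
  have hsum : ∀ (a : Fin n → ℝ) (x : Fin n → ℝ),
      ∑ i, (∑ j, φ i j (x i) * a j) / G i x = a j₀ := by
    intro a x
    have h1 : ∀ i, (∑ j, φ i j (x i) * a j) / G i x = ∑ j, a j * (φ i j (x i) / G i x) := by
      intro i
      rw [Finset.sum_div]
      exact Finset.sum_congr rfl fun j _ => by ring
    simp only [h1]
    rw [Finset.sum_comm]
    simp only [← Finset.mul_sum, hG2]
    simp
  have hq : ∀ i s (a : Fin n → ℝ), a ∈ A → HasFDerivAt
      (fun b : Fin n → ℝ => Real.sqrt (2 * ∑ j, φ i j s * b j))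
      ((1 / (2 * Real.sqrt (2 * ∑ j, φ i j s * a j))) • ((2 : ℝ) • dotL (fun j => φ i j s))) a := by
    intro i s a ha
    have h1 : HasFDerivAt (fun b : Fin n → ℝ => 2 * ∑ j, φ i j s * b j)
        ((2 : ℝ) • dotL (fun j => φ i j s)) a := by
      have h2 : (fun b : Fin n → ℝ => 2 * ∑ j, φ i j s * b j) =
          fun b => ((2 : ℝ) • dotL (fun j => φ i j s)) b := by
        ext b; simp
      rw [h2]
      exact ContinuousLinearMap.hasFDerivAt _
    exact h1.sqrt (by have := ha i s; positivity)
  have H : IsSeparated g A (fun i s a => Real.sqrt (2 * ∑ j, φ i j s * a j))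
      (fun a => a j₀) := by
    refine ⟨?_, ?_, ?_, ?_, ?_⟩
    · intro i
      refine ContDiffOn.sqrt ?_ ?_
      · refine ContDiff.contDiffOn ?_
        refine contDiff_const.mul (ContDiff.sum fun j _ => ?_)
        have h1 : ContDiff ℝ 1 (fun z : ℝ × (Fin n → ℝ) => φ i j z.1) :=
          (hc i j).comp contDiff_fst
        have h2 : ContDiff ℝ 1 (fun z : ℝ × (Fin n → ℝ) => z.2 j) := by fun_prop
        exact h1.mul h2
      · rintro ⟨s, a⟩ ⟨_, ha⟩
        have := ha i s
        simp only
        positivity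
    · intro i a _ s
      simp only [hper]
    · intro a ha x X hX
      have h1 : ∀ i, G i x * X i = Real.sqrt (2 * ∑ j, φ i j (x i) * a j) := by
        intro i
        have := hX (Pi.single i 1)
        rw [hgG, Finset.sum_eq_single i, Finset.sum_eq_single i] at this
        · simpa using this
        · intro j _ hj; simp [hj]
        · simp
        · intro j _ hj; simp [hj]
        · simp
      rw [hgG]
      have h2 : ∀ i, G i x * X i * X i = 2 * ((∑ j, φ i j (x i) * a j) / G i x) := by
        intro i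
        have h3 : G i x ≠ 0 := (hG i x).ne'
        have h4 : X i = Real.sqrt (2 * ∑ j, φ i j (x i) * a j) / G i x := by
          rw [← h1 i]; field_simp
        rw [h1 i, h4, mul_div_assoc', Real.mul_self_sqrt (by have := ha i (x i); positivity)]
        ring
      simp only [h2]
      rw [← Finset.mul_sum, hsum a x]; ring
    · intro a ha
      rw [← hsum a 0]
      exact Finset.sum_pos (fun i _ => div_pos (ha i _) (hG i _)) ⟨j₀, Finset.mem_univ _⟩
    · intro a ha x b hb
      have h1 : ∀ i, ∑ j, φ i j (x i) * b j = 0 := by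
        intro i
        have h2 := hb i
        rw [(hq i (x i) a ha).fderiv] at h2
        simp only [smul_apply, dotL_apply, smul_eq_mul] at h2
        have h3 : 0 < Real.sqrt (2 * ∑ j, φ i j (x i) * a j) :=
          Real.sqrt_pos.mpr (by have := ha i (x i); positivity)
        rcases mul_eq_zero.mp h2 with h4 | h4
        · exfalso
          have : 0 < 1 / (2 * Real.sqrt (2 * ∑ j, φ i j (x i) * a j)) := by positivity
          linarith
        · linarith
      apply Matrix.eq_zero_of_mulVec_eq_zero (hdet x)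
      ext i
      simp only [Matrix.mulVec, dotProduct, Matrix.of_apply, Pi.zero_apply]
      exact h1 i
  exact H.main hg hAo ⟨a0, ha0⟩ x

/-- Liouville metrics `(f_1(x_1) + ... + f_n(x_n)) (dx_1² + ... + dx_n²)`. -/
theorem liouville {g : (Fin n → ℝ) → (Fin n → ℝ) →L[ℝ] (Fin n → ℝ) →L[ℝ] ℝ}
    (f : Fin n → ℝ → ℝ) (hf : ∀ i, ContDiff ℝ 1 (f i)) (hper : ∀ i s, f i (s + 1) = f i s)
    (hpos : ∀ x : Fin n → ℝ, 0 < ∑ i, f i (x i))
    (hgf : ∀ x v w, g x v w = (∑ i, f i (x i)) * ∑ i, v i * w i) (x : Fin n → ℝ) :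
    ∃ γ v : ℝ → (Fin n → ℝ), IsClosedGeodesic g γ v ∧ γ 0 = x := by
  -- the index set is nonempty
  have hn : Nonempty (Fin n) := by
    by_contra hne
    rw [not_nonempty_iff] at hne
    have := hpos 0
    simp at this
  obtain ⟨j₀⟩ := hn
  have hg : IsTorusMetric g := by
    refine ⟨?_, ?_, ?_, ?_⟩
    · have h1 : ContDiff ℝ 1 (fun x : Fin n → ℝ => ∑ i, f i (x i)) :=
        ContDiff.sum fun i _ => (hf i).comp (contDiff_apply ℝ ℝ i)
      rw [contDiff_clm_apply_iff]
      intro v
      rw [contDiff_clm_apply_iff]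
      intro w
      simp only [hgf]
      exact h1.mul contDiff_const
    · intro x v w
      rw [hgf, hgf]
      congr 1
      exact Finset.sum_congr rfl fun i _ => mul_comm _ _
    · intro x v hv
      rw [hgf]
      refine mul_pos (hpos x) ?_
      obtain ⟨i, hi⟩ := Function.ne_iff.mp hv
      exact Finset.sum_pos' (fun i _ => mul_self_nonneg _) ⟨i, Finset.mem_univ _,
        mul_self_pos.mpr hi⟩
    · intro x m
      ext v w
      rw [hgf, hgf]
      congr 1
      refine Finset.sum_congr rfl fun i _ => ?_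
      have hp : Function.Periodic (f i) 1 := hper i
      have := hp.int_mul (m i) (x i)
      rw [mul_one] at this
      exact this
  -- the Staeckel matrix
  set φ : Fin n → Fin n → ℝ → ℝ := fun i j s =>
    if j = j₀ then f i s else (if i = j then 1 else 0) - (if i = j₀ then 1 else 0) with hφ
  have hcol : ∀ (j : Fin n), j ≠ j₀ → ∀ x : Fin n → ℝ, ∑ i, φ i j (x i) = 0 := by
    intro j hj x
    simp only [hφ, if_neg hj]
    rw [Finset.sum_sub_distrib]
    simp
  have hcol0 : ∀ x : Fin n → ℝ, ∑ i, φ i j₀ (x i) = ∑ i, f i (x i) := by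
    intro x
    simp [hφ]
  refine stackel hg φ ?_ ?_ ?_ j₀ (fun _ x => ∑ i, f i (x i)) (fun _ x => hpos x) ?_ ?_ x
  · intro i j
    simp only [hφ]
    split_ifs
    · exact hf i
    all_goals exact contDiff_const
  · intro i j s
    simp only [hφ]
    split_ifs
    · exact hper i s
    all_goals rfl
  · intro y hdet
    obtain ⟨b, hb0, hb⟩ := Matrix.exists_mulVec_eq_zero_iff.mpr hdet
    apply hb0
    -- sum of the rows
    have h1 : ∀ i, ∑ j, φ i j (y i) * b j = 0 := fun i => congrFun hb i
    have h2 : ∀ i, f i (y i) * b j₀ + (if i = j₀ then 0 else b i) -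
        (if i = j₀ then ∑ j, (if j = j₀ then 0 else b j) else 0) = 0 := by
      intro i
      have h5 := h1 i
      have h3 : ∀ j, φ i j (y i) * b j = (if j = j₀ then f i (y i) * b j₀ else 0) +
          (if j = i then (if i = j₀ then 0 else b i) else 0) -
          (if i = j₀ then (if j = j₀ then 0 else b j) else 0) := by
        intro j
        simp only [hφ]
        by_cases hj : j = j₀
        · subst hj
          by_cases hi : i = j
          · subst hi; simp
          · simp [hi, Ne.symm hi]
        · by_cases hi : i = j₀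
          · subst hi
            simp [hj, Ne.symm hj]
          · by_cases hij : i = j
            · subst hij; simp [hi]
            · simp [hj, hi, hij, Ne.symm hij]
      rw [Finset.sum_congr rfl fun j _ => h3 j, Finset.sum_sub_distrib,
        Finset.sum_add_distrib] at h5
      by_cases hi : i = j₀
      · subst hi
        simp only [if_true, Finset.sum_ite_eq', Finset.mem_univ, add_zero] at h5 ⊢
        exact h5
      · simp only [hi, if_false, Finset.sum_ite_eq', Finset.mem_univ, if_true,
          Finset.sum_const_zero, sub_zero] at h5 ⊢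
        exact h5
    have h4 : (∑ i, f i (y i)) * b j₀ = 0 := by
      have h5 : ∑ i, (f i (y i) * b j₀ + (if i = j₀ then 0 else b i) -
        (if i = j₀ then ∑ j, (if j = j₀ then 0 else b j) else 0)) = 0 :=
        Finset.sum_eq_zero fun i _ => h2 i
      rw [Finset.sum_sub_distrib, Finset.sum_add_distrib] at h5
      simp only [Finset.sum_ite_eq', Finset.mem_univ, if_true] at h5
      rw [Finset.sum_mul]
      linarith
    have h6 : b j₀ = 0 := by
      rcases mul_eq_zero.mp h4 with h7 | h7
      · exact absurd h7 (hpos y).ne'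
      · exact h7
    ext i
    by_cases hi : i = j₀
    · subst hi; simpa using h6
    · have h8 := h2 i
      simp only [hi, if_false, h6, mul_zero, zero_add, sub_zero] at h8
      simpa using h8
  · intro j y
    rw [← Finset.sum_div]
    by_cases hj : j = j₀
    · subst hj
      rw [hcol0, if_pos rfl, div_self (hpos y).ne']
    · rw [hcol j hj, if_neg hj, zero_div]
  · intro y v w
    rw [hgf, Finset.mul_sum]
    exact Finset.sum_congr rfl fun i _ => by ring

end Helper59.TG
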