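import Pool.Agent.Helper59.TG.Torus
import Pool.Agent.Helper59.TG.General
import Pool.Agent.Helper59.TG.Stackel
import Pool.Agent.Helper59.TG.OneCoord

namespace Helper59.Torus

open Set Filter Topology Helper59.TG

variable {n : ℕ}

/-- The metric as a family of continuous bilinear maps. -/
noncomputable def toC (g : Vec n → Fin n → Fin n → ℝ) (x : Vec n) :
    (Fin n → ℝ) →L[ℝ] (Fin n → ℝ) →L[ℝ] ℝ :=
  ∑ i, ∑ j, g x i j • (ContinuousLinearMap.proj (R := ℝ) (φ := fun _ : Fin n => ℝ) i).smulRight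
    (ContinuousLinearMap.proj (R := ℝ) (φ := fun _ : Fin n => ℝ) j)

lemma toC_apply (g : Vec n → Fin n → Fin n → ℝ) (x v w : Vec n) :
    toC g x v w = ∑ i, ∑ j, g x i j * v i * w j := by
  simp only [toC, sum_apply, smul_apply, ContinuousLinearMap.smulRight_apply,
    ContinuousLinearMap.proj_apply, smul_eq_mul]
  refine Finset.sum_congr rfl fun i _ => Finset.sum_congr rfl fun j _ => ?_
  ring

lemma IsMetric.toC {g : Vec n → Fin n → Fin n → ℝ} (hg : IsMetric g) :
    IsTorusMetric (Torus.toC g) := by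
  refine ⟨?_, ?_, ?_, ?_⟩
  · rw [contDiff_clm_apply_iff]
    intro v
    rw [contDiff_clm_apply_iff]
    intro w
    simp only [toC_apply]
    refine ContDiff.sum fun i _ => ContDiff.sum fun j _ => ?_
    exact ((hg.smooth i j).mul contDiff_const).mul contDiff_const
  · intro x v w
    rw [toC_apply, toC_apply, Finset.sum_comm]
    refine Finset.sum_congr rfl fun i _ => Finset.sum_congr rfl fun j _ => ?_
    rw [hg.symm x j i]; ring
  · intro x v hv
    rw [toC_apply]
    exact hg.pos x v hv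
  · intro x m
    unfold Torus.toC
    have h1 : g (x + iv m) = g x := hg.periodic x m
    rw [h1]

lemma fderiv_toC {g : Vec n → Fin n → Fin n → ℝ} (hg : IsMetric g) (x w v u : Vec n) :
    fderiv ℝ (toC g) x w v u = ∑ i, ∑ j, fderiv ℝ (fun y => g y i j) x w * v i * u j := by
  have h1 : HasFDerivAt (toC g) (fderiv ℝ (toC g) x) x :=
    (hg.toC.smooth.differentiable one_ne_zero x).hasFDerivAt
  have h2 := (h1.clm_apply (hasFDerivAt_const v x)).clm_apply (hasFDerivAt_const u x)
  have h4 : HasFDerivAt (fun y => toC g y v u)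
      (∑ i, ∑ j, (v i * u j) • fderiv ℝ (fun y => g y i j) x) x := by
    have h5 : (fun y => toC g y v u) = fun y => ∑ i, ∑ j, (v i * u j) * g y i j := by
      ext y
      rw [toC_apply]
      refine Finset.sum_congr rfl fun i _ => Finset.sum_congr rfl fun j _ => ?_
      ring
    rw [h5]
    refine HasFDerivAt.fun_sum fun i _ => HasFDerivAt.fun_sum fun j _ => ?_
    exact (((hg.smooth i j).differentiable one_ne_zero x).hasFDerivAt).const_mul (v i * u j)
  have h6 := congrArg (fun f : (Fin n → ℝ) →L[ℝ] ℝ => f w) (h2.unique h4)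
  simp only [ContinuousLinearMap.comp_zero, zero_add, ContinuousLinearMap.flip_apply, sum_apply,
    smul_apply, smul_eq_mul] at h6
  rw [h6]
  refine Finset.sum_congr rfl fun i _ => Finset.sum_congr rfl fun j _ => ?_
  ring

lemma toC_single {g : Vec n → Fin n → Fin n → ℝ} (hg : IsMetric g) (x v : Vec n) (i : Fin n) :
    toC g x v (Pi.single i 1) = ∑ j, g x i j * v j := by
  rw [toC_apply]
  refine Finset.sum_congr rfl fun k _ => ?_
  rw [Finset.sum_eq_single i]
  · rw [hg.symm x k i]; simp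
  · intro j _ hj; simp [hj]
  · simp

lemma isGeodesic_of {g : Vec n → Fin n → Fin n → ℝ} (hg : IsMetric g) {γ v : ℝ → Vec n}
    (h : TG.IsGeodesic (toC g) γ v) : IsGeodesic g γ v := by
  refine ⟨fun t i => ?_, fun t i => ?_⟩
  · exact (hasDerivAt_pi.mp (h.1 t)) i
  · have h1 := h.2 (Pi.single i 1) t
    simp only [toC_single hg, fderiv_toC hg] at h1
    exact h1

lemma isClosedGeodesic_of {g : Vec n → Fin n → Fin n → ℝ} (hg : IsMetric g) {γ v : ℝ → Vec n}
    (h : TG.IsClosedGeodesic (toC g) γ v) : IsClosedGeodesic g γ v := by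
  obtain ⟨h1, h2, T, hT, m, hm⟩ := h
  exact ⟨isGeodesic_of hg h1, h2, T, hT, m, hm⟩

lemma pd_eq {f : Vec n → ℝ} (x w : Vec n) :
    fderiv ℝ f x w = ∑ i, w i * pd f i x := by
  have h1 : w = ∑ i, w i • (Pi.single i 1 : Fin n → ℝ) := by
    ext k
    simp [Pi.single_apply]
  conv_lhs => rw [h1]
  simp [pd]

lemma jac_inj {F : Vec n → Vec n} {a : Vec n} (h : jac F a ≠ 0) (b : Vec n)
    (hb : ∀ i, fderiv ℝ (fun c => F c i) a b = 0) : b = 0 := by
  apply Matrix.eq_zero_of_mulVec_eq_zero h
  ext i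
  simp only [Matrix.mulVec, dotProduct, Matrix.of_apply, Pi.zero_apply]
  rw [← hb i, pd_eq]
  exact Finset.sum_congr rfl fun j _ => mul_comm _ _

theorem completeIntegral_of {g : Vec n → Fin n → Fin n → ℝ} (hg : IsMetric g)
    {A : Set (Vec n)} (hA : IsOpen A) {S : Vec n → Vec n → ℝ} {P : Vec n → Vec n}
    {h : Vec n → ℝ} (H : IsCompleteIntegral g A S P h) :
    TG.IsCompleteIntegral (toC g) A (fun z => S z.1 z.2) P h := by
  set S' : Vec n × Vec n → ℝ := fun z => S z.1 z.2 with hS'
  have hopen : IsOpen ((univ : Set (Vec n)) ×ˢ A) := isOpen_univ.prod hA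
  have hmem : ∀ a ∈ A, ∀ x : Vec n, (univ : Set (Vec n)) ×ˢ A ∈ 𝓝 (x, a) :=
    fun a ha x => hopen.mem_nhds ⟨mem_univ _, ha⟩
  have hS1 : ∀ a ∈ A, ∀ x, HasFDerivAt S' (fderiv ℝ S' (x, a)) (x, a) := fun a ha x =>
    ((H.smooth.contDiffAt (hmem a ha x)).differentiableAt two_ne_zero).hasFDerivAt
  have hx : ∀ a ∈ A, ∀ x, ∀ w, fderiv ℝ S' (x, a) (w, 0) = fderiv ℝ (fun y => S y a) x w := by
    intro a ha x w
    have h1 : HasFDerivAt (fun y : Vec n => (y, a))
        (ContinuousLinearMap.inl ℝ (Vec n) (Vec n)) x := hasFDerivAt_prodMk_left x a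
    have h2 : HasFDerivAt (fun y => S y a)
        ((fderiv ℝ S' (x, a)).comp (ContinuousLinearMap.inl ℝ (Vec n) (Vec n))) x :=
      HasFDerivAt.comp (f := fun y : Vec n => (y, a)) x (hS1 a ha x) h1
    rw [h2.fderiv]
    rfl
  have hmom : ∀ a ∈ A, ∀ x i, fderiv ℝ S' (x, a) (Pi.single i 1, 0) = mom S x a i := by
    intro a ha x i
    rw [hx a ha x]
    rfl
  have hfd : ContDiffOn ℝ 1 (fderiv ℝ S') (univ ×ˢ A) :=
    H.smooth.fderiv_of_isOpen hopen (by norm_num)
  have hS2 : ∀ a ∈ A, ∀ x, HasFDerivAt (fderiv ℝ S') (fderiv ℝ (fderiv ℝ S') (x, a)) (x, a) :=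
    fun a ha x => ((hfd.contDiffAt (hmem a ha x)).differentiableAt one_ne_zero).hasFDerivAt
  refine
    { smooth := H.smooth
      periods := H.periods
      energy_pos := H.energy_pos
      hamiltonJacobi := ?_
      hessian := ?_
      periodsJacobian := ?_ }
  · intro a ha x
    obtain ⟨X, hX1, hX2⟩ := H.hamiltonJacobi a ha x
    have h1 : ∀ w, toC g x X w = fderiv ℝ S' (x, a) (w, 0) := by
      intro w
      rw [hx a ha x w, pd_eq]
      have h2 : w = ∑ i, w i • (Pi.single i 1 : Fin n → ℝ) := by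
        ext k
        simp [Pi.single_apply]
      conv_lhs => rw [h2]
      rw [map_sum]
      refine Finset.sum_congr rfl fun i _ => ?_
      rw [map_smul, smul_eq_mul, toC_single hg, hX1 i]
      rfl
    refine ⟨X, h1, ?_⟩
    rw [h1 X, hx a ha x X, pd_eq, ← hX2]
    congr 1
    exact Finset.sum_congr rfl fun i _ => mul_comm _ _
  · intro a ha x b hb
    apply jac_inj (H.hessian a ha x) b
    intro i
    have h1 : HasFDerivAt (fun c : Vec n => (x, c))
        (ContinuousLinearMap.inr ℝ (Vec n) (Vec n)) a := hasFDerivAt_prodMk_right x a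
    have h2 : HasFDerivAt (fun c => fderiv ℝ S' (x, c))
        ((fderiv ℝ (fderiv ℝ S') (x, a)).comp (ContinuousLinearMap.inr ℝ (Vec n) (Vec n))) a :=
      HasFDerivAt.comp (f := fun c : Vec n => (x, c)) a (hS2 a ha x) h1
    have h3 : HasFDerivAt (fun c => fderiv ℝ S' (x, c) (Pi.single i 1, 0))
        ((ContinuousLinearMap.apply ℝ ℝ ((Pi.single i 1, 0) : Vec n × Vec n)).comp
          ((fderiv ℝ (fderiv ℝ S') (x, a)).comp (ContinuousLinearMap.inr ℝ (Vec n) (Vec n)))) a :=
      (ContinuousLinearMap.apply ℝ ℝ ((Pi.single i 1, 0) : Vec n × Vec n)).hasFDerivAt.comp a h2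
    have h4 : (fun c => mom S x c i) =ᶠ[𝓝 a] fun c => fderiv ℝ S' (x, c) (Pi.single i 1, 0) := by
      filter_upwards [hA.mem_nhds ha] with c hc
      exact (hmom c hc x i).symm
    rw [(h3.congr_of_eventuallyEq h4).fderiv]
    exact hb _
  · intro a ha b hb
    apply jac_inj (H.periodsJacobian a ha) b
    intro i
    -- `P` is differentiable at `a`
    have hPe : ∀ a ∈ A, P a = fun i => S (intVec (Pi.single i 1)) a - S 0 a := by
      intro a ha
      ext i
      have h1 := H.periods a ha 0 (Pi.single i 1)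
      rw [zero_add] at h1
      rw [h1]
      have h2 : ∑ j, P a j * (((Pi.single i 1 : Fin n → ℤ) j : ℤ) : ℝ) = P a i := by
        rw [Finset.sum_eq_single i]
        · simp
        · intro j _ hj; simp [hj]
        · simp
      rw [h2]; ring
    have hSa : ∀ x, DifferentiableAt ℝ (fun b => S x b) a := fun x =>
      (HasFDerivAt.comp (f := fun c : Vec n => (x, c)) a (hS1 a ha x)
        (hasFDerivAt_prodMk_right (𝕜 := ℝ) x a)).differentiableAt
    have h1 : DifferentiableAt ℝ P a := by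
      have h2 : DifferentiableAt ℝ (fun b => fun i => S (intVec (Pi.single i 1)) b - S 0 b) a := by
        rw [differentiableAt_pi]
        intro i
        exact (hSa _).sub (hSa _)
      have h3 : P =ᶠ[𝓝 a] fun b => fun i => S (intVec (Pi.single i 1)) b - S 0 b := by
        filter_upwards [hA.mem_nhds ha] with b hb using hPe b hb
      exact h2.congr_of_eventuallyEq h3
    have h2 := (hasFDerivAt_pi'.mp h1.hasFDerivAt) i
    rw [h2.fderiv]
    show (fderiv ℝ P a b) i = 0
    rw [hb]
    rfl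

theorem near_of {g : Vec n → Fin n → Fin n → ℝ} (hg : IsMetric g)
    {A : Set (Vec n)} (hA : IsOpen A) {S : Vec n → Vec n → ℝ} {P : Vec n → Vec n}
    {h : Vec n → ℝ} (H : IsCompleteIntegral g A S P h) {a : Vec n} (ha : a ∈ A)
    (x X : Vec n) (hX : IsGradient g S x a X) {ε : ℝ} (hε : 0 < ε) :
    ClosedGeodesicNear g x X ε := by
  have H' := completeIntegral_of hg hA H
  have hX' : ∀ w, toC g x X w = fderiv ℝ (fun z : Vec n × Vec n => S z.1 z.2) (x, a) (w, 0) := by
    intro w
    have hopen : IsOpen ((univ : Set (Vec n)) ×ˢ A) := isOpen_univ.prod hA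
    have hS1 : HasFDerivAt (fun z : Vec n × Vec n => S z.1 z.2)
        (fderiv ℝ (fun z : Vec n × Vec n => S z.1 z.2) (x, a)) (x, a) :=
      ((H.smooth.contDiffAt (hopen.mem_nhds ⟨mem_univ _, ha⟩)).differentiableAt
        two_ne_zero).hasFDerivAt
    have h1 : HasFDerivAt (fun y : Vec n => (y, a))
        (ContinuousLinearMap.inl ℝ (Vec n) (Vec n)) x := hasFDerivAt_prodMk_left x a
    have h2 : HasFDerivAt (fun y => S y a)
        ((fderiv ℝ (fun z : Vec n × Vec n => S z.1 z.2) (x, a)).comp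
          (ContinuousLinearMap.inl ℝ (Vec n) (Vec n))) x :=
      HasFDerivAt.comp (f := fun y : Vec n => (y, a)) x hS1 h1
    have h3 : fderiv ℝ (fun z : Vec n × Vec n => S z.1 z.2) (x, a) (w, 0) =
        fderiv ℝ (fun y => S y a) x w := by
      rw [h2.fderiv]; rfl
    rw [h3, pd_eq]
    have h4 : w = ∑ i, w i • (Pi.single i 1 : Fin n → ℝ) := by
      ext k
      simp [Pi.single_apply]
    conv_lhs => rw [h4]
    rw [map_sum]
    refine Finset.sum_congr rfl fun i _ => ?_
    rw [map_smul, smul_eq_mul, toC_single hg, hX i]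
    rfl
  obtain ⟨γ, v, h1, h2, h3⟩ := H'.main hg.toC hA ha x X hX' hε
  refine ⟨γ, v, isClosedGeodesic_of hg h1, h2, fun i => ?_⟩
  exact lt_of_le_of_lt (norm_le_pi_norm (v 0 - X) i) h3

theorem through_of (hn : 0 < n) {g : Vec n → Fin n → Fin n → ℝ} (hg : IsMetric g)
    (h : IsStackel g ∨ IsLiouville g ∨ IsOneCoordinate g) (x : Vec n) :
    ClosedGeodesicThrough g x := by
  have hdiag : ∀ x i, 0 < g x i i := by
    intro x i
    have h1 := hg.pos x (Pi.single i 1) (by simp)
    rw [Finset.sum_eq_single i, Finset.sum_eq_single i] at h1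
    · simpa using h1
    · intro j _ hj; simp [hj]
    · simp
    · intro j _ hj; simp [hj]
    · simp
  rcases h with ⟨φ, j₀, hc, hper, hdet, hoff, hsum⟩ | ⟨f, hf, hper, hgf⟩ | ⟨i₀, hdep⟩
  · obtain ⟨γ, v, h1, h2⟩ := stackel hg.toC φ hc hper hdet j₀ (fun i x => g x i i)
      (fun i x => hdiag x i) (fun j x => hsum x j) (by
        intro x v w
        rw [toC_apply]
        refine Finset.sum_congr rfl fun i _ => ?_
        rw [Finset.sum_eq_single i]
        · intro j _ hj; rw [hoff x i j (Ne.symm hj)]; ring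
        · simp) x
    exact ⟨γ, v, isClosedGeodesic_of hg h1, h2⟩
  · have i₀ : Fin n := ⟨0, hn⟩
    obtain ⟨γ, v, h1, h2⟩ := liouville (g := toC g) f hf hper (fun x => by
        have := hdiag x i₀
        rw [hgf, if_pos rfl] at this
        exact this) (by
        intro x v w
        rw [toC_apply, Finset.mul_sum]
        refine Finset.sum_congr rfl fun i _ => ?_
        rw [Finset.sum_eq_single i]
        · rw [hgf, if_pos rfl]; ring
        · intro j _ hj; rw [hgf, if_neg (Ne.symm hj)]; ring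
        · simp) x
    exact ⟨γ, v, isClosedGeodesic_of hg h1, h2⟩
  · obtain ⟨γ, v, h1, h2⟩ := oneCoord hg.toC i₀ (fun x y hxy => by
      unfold toC
      rw [hdep x y hxy]) x
    exact ⟨γ, v, isClosedGeodesic_of hg h1, h2⟩

end Helper59.Torus
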