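import Pool.Agent.Helper59.TG.Defs

namespace Helper59.TG

open Set Filter Topology

variable {n : ℕ}

lemma iv_add (m k : Fin n → ℤ) : iv (m + k) = iv m + iv k := by
  ext i; simp [iv]

lemma iv_neg (m : Fin n → ℤ) : iv (-m) = - iv m := by
  ext i; simp [iv]

/-- Every point is a point of the unit cube plus an integer vector. -/
lemma exists_reduce (x : Fin n → ℝ) :
    ∃ (y : Fin n → ℝ) (m : Fin n → ℤ), x = y + iv m ∧ y ∈ Icc (0 : Fin n → ℝ) 1 := by
  refine ⟨fun i => Int.fract (x i), fun i => ⌊x i⌋, ?_, ?_, ?_⟩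
  · ext i; simp only [Pi.add_apply, iv]; exact (Int.fract_add_floor (x i)).symm
  · intro i; exact Int.fract_nonneg _
  · intro i; exact (Int.fract_lt_one _).le

/-- Injective strict derivative: locally injective. -/
lemma exists_injOn {E F : Type*} [NormedAddCommGroup E] [NormedSpace ℝ E]
    [FiniteDimensional ℝ E] [NormedAddCommGroup F] [NormedSpace ℝ F] {f : E → F}
    {f' : E →L[ℝ] F} {a : E} (hf : HasStrictFDerivAt f f' a)
    (hinj : ∀ v, f' v = 0 → v = 0) : ∃ s ∈ 𝓝 a, InjOn f s := by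
  have hker : LinearMap.ker (f' : E →ₗ[ℝ] F) = ⊥ := by
    rw [LinearMap.ker_eq_bot']
    intro v hv
    exact hinj v hv
  obtain ⟨K, hKpos, hK⟩ := LinearMap.exists_antilipschitzWith (f' : E →ₗ[ℝ] F) hker
  have hc : (0 : NNReal) < (2 * K)⁻¹ := by positivity
  obtain ⟨s, hs, happ⟩ := hf.approximates_deriv_on_nhds (c := (2 * K)⁻¹) (Or.inr hc)
  refine ⟨s, hs, ?_⟩
  intro x hx y hy hxy
  have h1 := happ x hx y hy
  rw [hxy, sub_self, zero_sub, norm_neg] at h1
  have h2 := hK.le_mul_dist (x - y) 0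
  simp only [ContinuousLinearMap.coe_coe, map_zero, dist_zero_right] at h2
  have h3 : ‖x - y‖ ≤ K * ((2 * K)⁻¹ * ‖x - y‖) := by
    refine h2.trans ?_
    gcongr
  have h4 : (K : ℝ) * (((2 * K)⁻¹ : NNReal) * ‖x - y‖) = ‖x - y‖ / 2 := by
    have : (K : ℝ) ≠ 0 := by exact_mod_cast hKpos.ne'
    rw [NNReal.coe_inv, NNReal.coe_mul, NNReal.coe_ofNat]
    field_simp
  rw [h4] at h3
  have h5 : ‖x - y‖ = 0 := le_antisymm (by linarith) (norm_nonneg _)
  exact sub_eq_zero.mp (norm_eq_zero.mp h5)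

end Helper59.TG
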