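import Pool.Agent.Helper59.TG.Flow

namespace Helper59.TG

open Set Filter Topology
open scoped NNReal

variable {n : ℕ}

/-- Technical form of a complete integral (see `IsCompleteIntegral`). -/
structure Core (g : (Fin n → ℝ) → (Fin n → ℝ) →L[ℝ] (Fin n → ℝ) →L[ℝ] ℝ)
    (A : Set (Fin n → ℝ)) (p : (Fin n → ℝ) × (Fin n → ℝ) → ((Fin n → ℝ) →L[ℝ] ℝ))
    (S : (Fin n → ℝ) → (Fin n → ℝ) → ℝ)
    (Φ : (Fin n → ℝ) → (Fin n → ℝ) → ((Fin n → ℝ) →L[ℝ] ℝ))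
    (P : (Fin n → ℝ) → (Fin n → ℝ))
    (P' : (Fin n → ℝ) → ((Fin n → ℝ) →L[ℝ] (Fin n → ℝ)))
    (h : (Fin n → ℝ) → ℝ) : Prop where
  metric : IsTorusMetric g
  isOpen : IsOpen A
  p_smooth : ContDiffOn ℝ 1 p (univ ×ˢ A)
  S_deriv : ∀ a ∈ A, ∀ x, HasFDerivAt (fun y => S y a) (p (x, a)) x
  S_per : ∀ a ∈ A, ∀ x m, S (x + iv m) a = S x a + ∑ i, P a i * m i
  P_deriv : ∀ a ∈ A, HasFDerivAt P (P' a) a
  P_inj : ∀ a ∈ A, ∀ b, P' a b = 0 → b = 0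
  energy : ∀ a ∈ A, ∀ x, p (x, a) ((g x).inverse (p (x, a))) = 2 * h a
  energy_pos : ∀ a ∈ A, 0 < h a
  p_inj : ∀ a ∈ A, ∀ x b, fderiv ℝ p (x, a) (0, b) = 0 → b = 0
  Φ_deriv : ∀ a ∈ A, ∀ x, HasFDerivAt (fun y => Φ y a)
    (((fderiv ℝ p (x, a)).comp (ContinuousLinearMap.inr ℝ _ _)).flip) x
  Φ_per : ∀ a ∈ A, ∀ x m b, Φ (x + iv m) a b = Φ x a b + ∑ i, P' a b i * m i

/-- The velocity field of the complete integral. -/
noncomputable def vel (g : (Fin n → ℝ) → (Fin n → ℝ) →L[ℝ] (Fin n → ℝ) →L[ℝ] ℝ)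
    (p : (Fin n → ℝ) × (Fin n → ℝ) → ((Fin n → ℝ) →L[ℝ] ℝ))
    (z : (Fin n → ℝ) × (Fin n → ℝ)) : Fin n → ℝ := (g z.1).inverse (p z)

lemma finrank_dual : Module.finrank ℝ ((Fin n → ℝ) →L[ℝ] ℝ) = Module.finrank ℝ (Fin n → ℝ) := by
  have e : ((Fin n → ℝ) →ₗ[ℝ] ℝ) ≃ₗ[ℝ] ((Fin n → ℝ) →L[ℝ] ℝ) := LinearMap.toContinuousLinearMap
  rw [← e.finrank_eq, Module.finrank_linearMap, Module.finrank_self, mul_one]

lemma isInvertible_of_inj (f : (Fin n → ℝ) →L[ℝ] (Fin n → ℝ) →L[ℝ] ℝ)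
    (hf : ∀ v, f v = 0 → v = 0) : f.IsInvertible := by
  have hinj : Function.Injective (f : (Fin n → ℝ) →ₗ[ℝ] ((Fin n → ℝ) →L[ℝ] ℝ)) := by
    rw [injective_iff_map_eq_zero]
    exact hf
  let e := LinearEquiv.ofInjectiveOfFinrankEq (f : (Fin n → ℝ) →ₗ[ℝ] ((Fin n → ℝ) →L[ℝ] ℝ))
    hinj finrank_dual.symm
  refine ⟨e.toContinuousLinearEquiv, ?_⟩
  ext v w
  rfl

lemma IsTorusMetric.isInvertible {g : (Fin n → ℝ) → (Fin n → ℝ) →L[ℝ] (Fin n → ℝ) →L[ℝ] ℝ}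
    (hg : IsTorusMetric g) (x : Fin n → ℝ) : (g x).IsInvertible := by
  apply isInvertible_of_inj
  intro v hv
  by_contra hne
  have := hg.pos x v hne
  rw [hv] at this
  simp at this

lemma IsTorusMetric.apply_inverse {g : (Fin n → ℝ) → (Fin n → ℝ) →L[ℝ] (Fin n → ℝ) →L[ℝ] ℝ}
    (hg : IsTorusMetric g) (x : Fin n → ℝ) (q : (Fin n → ℝ) →L[ℝ] ℝ) :
    g x ((g x).inverse q) = q := (hg.isInvertible x).self_apply_inverse q

lemma IsTorusMetric.inverse_symm {g : (Fin n → ℝ) → (Fin n → ℝ) →L[ℝ] (Fin n → ℝ) →L[ℝ] ℝ}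
    (hg : IsTorusMetric g) (x : Fin n → ℝ) (q r : (Fin n → ℝ) →L[ℝ] ℝ) :
    q ((g x).inverse r) = r ((g x).inverse q) := by
  calc q ((g x).inverse r) = g x ((g x).inverse q) ((g x).inverse r) := by rw [hg.apply_inverse]
    _ = g x ((g x).inverse r) ((g x).inverse q) := hg.symm _ _ _
    _ = r ((g x).inverse q) := by rw [hg.apply_inverse]

section
variable {g : (Fin n → ℝ) → (Fin n → ℝ) →L[ℝ] (Fin n → ℝ) →L[ℝ] ℝ}
    {A : Set (Fin n → ℝ)} {p : (Fin n → ℝ) × (Fin n → ℝ) → ((Fin n → ℝ) →L[ℝ] ℝ)}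
    {S : (Fin n → ℝ) → (Fin n → ℝ) → ℝ}
    {Φ : (Fin n → ℝ) → (Fin n → ℝ) → ((Fin n → ℝ) →L[ℝ] ℝ)}
    {P : (Fin n → ℝ) → (Fin n → ℝ)}
    {P' : (Fin n → ℝ) → ((Fin n → ℝ) →L[ℝ] (Fin n → ℝ))}
    {h : (Fin n → ℝ) → ℝ}

lemma Core.g_vel (H : Core g A p S Φ P P' h) (z : (Fin n → ℝ) × (Fin n → ℝ)) :
    g z.1 (vel g p z) = p z := H.metric.apply_inverse _ _

lemma Core.mem_nhds (H : Core g A p S Φ P P' h) {a : Fin n → ℝ} (ha : a ∈ A) (x : Fin n → ℝ) :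
    (univ : Set (Fin n → ℝ)) ×ˢ A ∈ 𝓝 (x, a) :=
  (isOpen_univ.prod H.isOpen).mem_nhds ⟨mem_univ _, ha⟩

lemma Core.p_contDiffAt (H : Core g A p S Φ P P' h) {a : Fin n → ℝ} (ha : a ∈ A)
    (x : Fin n → ℝ) : ContDiffAt ℝ 1 p (x, a) :=
  H.p_smooth.contDiffAt (H.mem_nhds ha x)

lemma Core.vel_contDiffAt (H : Core g A p S Φ P P' h) {a : Fin n → ℝ} (ha : a ∈ A)
    (x : Fin n → ℝ) : ContDiffAt ℝ 1 (vel g p) (x, a) := by
  have h1 : ContDiffAt ℝ 1 (fun z : (Fin n → ℝ) × (Fin n → ℝ) => (g z.1).inverse) (x, a) := by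
    have h2 : ContDiffAt ℝ 1 ContinuousLinearMap.inverse (g x) :=
      (H.metric.isInvertible x).contDiffAt_map_inverse
    have h3 : ContDiffAt ℝ 1 (fun z : (Fin n → ℝ) × (Fin n → ℝ) => g z.1) (x, a) :=
      (H.metric.smooth.comp contDiff_fst).contDiffAt
    exact ContDiffAt.comp (x, a) h2 h3
  exact h1.clm_apply (H.p_contDiffAt ha x)

lemma Core.p_per (H : Core g A p S Φ P P' h) {a : Fin n → ℝ} (ha : a ∈ A)
    (x : Fin n → ℝ) (m : Fin n → ℤ) : p (x + iv m, a) = p (x, a) := by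
  have h1 : HasFDerivAt (fun y => S (y + iv m) a) (p (x + iv m, a)) x := by
    exact (hasFDerivAt_comp_add_right (f := fun y => S y a) (iv m)).mpr
      (H.S_deriv a ha (x + iv m))
  have h2 : HasFDerivAt (fun y => S (y + iv m) a) (p (x, a)) x := by
    have h3 : (fun y => S (y + iv m) a) = fun y => S y a + ∑ i, P a i * m i := by
      ext y; exact H.S_per a ha y m
    rw [h3]
    exact (H.S_deriv a ha x).add_const _
  exact h1.unique h2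

lemma Core.vel_per (H : Core g A p S Φ P P' h) {a : Fin n → ℝ} (ha : a ∈ A)
    (x : Fin n → ℝ) (m : Fin n → ℤ) : vel g p (x + iv m, a) = vel g p (x, a) := by
  unfold vel
  rw [H.p_per ha]
  simp only [H.metric.periodic]

lemma Core.vel_x_contDiff (H : Core g A p S Φ P P' h) {a : Fin n → ℝ} (ha : a ∈ A) :
    ContDiff ℝ 1 (fun x => vel g p (x, a)) := by
  rw [contDiff_iff_contDiffAt]
  intro x
  exact ContDiffAt.comp x (H.vel_contDiffAt ha x) (contDiffAt_id.prodMk contDiffAt_const)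

/-- Bounded periodic continuous functions. -/
lemma bdd_of_periodic {F : Type*} [NormedAddCommGroup F] (f : (Fin n → ℝ) → F)
    (hf : Continuous f) (hper : ∀ x m, f (x + iv m) = f x) : ∃ C : ℝ≥0, ∀ x, ‖f x‖ ≤ C := by
  obtain ⟨C, hC⟩ := (isCompact_Icc (a := (0 : Fin n → ℝ)) (b := 1)).exists_bound_of_continuousOn
    hf.continuousOn
  refine ⟨C.toNNReal, fun x => ?_⟩
  obtain ⟨y, m, rfl, hy⟩ := exists_reduce x
  rw [hper]
  exact (hC y hy).trans (Real.le_coe_toNNReal C)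

lemma Core.vel_lip (H : Core g A p S Φ P P' h) {a : Fin n → ℝ} (ha : a ∈ A) :
    ∃ K L : ℝ≥0, LipschitzWith K (fun x => vel g p (x, a)) ∧ ∀ x, ‖vel g p (x, a)‖ ≤ L := by
  have hc := H.vel_x_contDiff ha
  obtain ⟨L, hL⟩ := bdd_of_periodic (fun x => vel g p (x, a)) hc.continuous
    (fun x m => H.vel_per ha x m)
  obtain ⟨K, hK⟩ := bdd_of_periodic (fderiv ℝ (fun x => vel g p (x, a)))
    (hc.continuous_fderiv one_ne_zero) (fun x m => by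
      have h1 : (fun x => vel g p (x, a)) = fun y => (fun x => vel g p (x, a)) (y + iv m) := by
        ext1 y; exact (H.vel_per ha y m).symm
      conv_rhs => rw [h1]
      exact (fderiv_comp_add_right (f := fun x => vel g p (x, a)) (iv m)).symm)
  exact ⟨K, L, lipschitzWith_of_nnnorm_fderiv_le (hc.differentiable one_ne_zero) hK, hL⟩

lemma Core.vel_ne (H : Core g A p S Φ P P' h) {a : Fin n → ℝ} (ha : a ∈ A)
    (x : Fin n → ℝ) : vel g p (x, a) ≠ 0 := by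
  intro h0
  have h1 := H.energy a ha x
  have h2 := H.energy_pos a ha
  have h3 : (g x).inverse (p (x, a)) = 0 := h0
  rw [h3, map_zero] at h1
  linarith

end

end Helper59.TG
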