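import Pool.Agent.Helper59.TG.Core1

namespace Helper59.TG

open Set Filter Topology
open scoped NNReal

variable {n : ℕ}

section
variable {g : (Fin n → ℝ) → (Fin n → ℝ) →L[ℝ] (Fin n → ℝ) →L[ℝ] ℝ}
    {A : Set (Fin n → ℝ)} {p : (Fin n → ℝ) × (Fin n → ℝ) → ((Fin n → ℝ) →L[ℝ] ℝ)}
    {S : (Fin n → ℝ) → (Fin n → ℝ) → ℝ}
    {Φ : (Fin n → ℝ) → (Fin n → ℝ) → ((Fin n → ℝ) →L[ℝ] ℝ)}
    {P : (Fin n → ℝ) → (Fin n → ℝ)}
    {P' : (Fin n → ℝ) → ((Fin n → ℝ) →L[ℝ] (Fin n → ℝ))}
    {h : (Fin n → ℝ) → ℝ}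

lemma Core.p_hasFDerivAt (H : Core g A p S Φ P P' h) {a : Fin n → ℝ} (ha : a ∈ A)
    (x : Fin n → ℝ) : HasFDerivAt p (fderiv ℝ p (x, a)) (x, a) :=
  ((H.p_contDiffAt ha x).differentiableAt one_ne_zero).hasFDerivAt

lemma Core.p_x_hasFDerivAt (H : Core g A p S Φ P P' h) {a : Fin n → ℝ} (ha : a ∈ A)
    (x : Fin n → ℝ) : HasFDerivAt (fun y => p (y, a))
      ((fderiv ℝ p (x, a)).comp (ContinuousLinearMap.inl ℝ _ _)) x := by
  have h1 : HasFDerivAt (fun y : Fin n → ℝ => (y, a))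
      (ContinuousLinearMap.inl ℝ (Fin n → ℝ) (Fin n → ℝ)) x := hasFDerivAt_prodMk_left x a
  exact HasFDerivAt.comp x (H.p_hasFDerivAt ha x) h1

lemma Core.p_a_hasFDerivAt (H : Core g A p S Φ P P' h) {a : Fin n → ℝ} (ha : a ∈ A)
    (x : Fin n → ℝ) : HasFDerivAt (fun b => p (x, b))
      ((fderiv ℝ p (x, a)).comp (ContinuousLinearMap.inr ℝ _ _)) a := by
  have h1 : HasFDerivAt (fun b : Fin n → ℝ => (x, b))
      (ContinuousLinearMap.inr ℝ (Fin n → ℝ) (Fin n → ℝ)) a := hasFDerivAt_prodMk_right x a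
  exact HasFDerivAt.comp a (H.p_hasFDerivAt ha x) h1

lemma Core.isGeodesic (H : Core g A p S Φ P P' h) {a : Fin n → ℝ} (ha : a ∈ A)
    {γ : ℝ → (Fin n → ℝ)} (hγ : ∀ t, HasDerivAt γ (vel g p (γ t, a)) t) :
    IsGeodesic g γ (fun t => vel g p (γ t, a)) := by
  refine ⟨hγ, fun w t => ?_⟩
  set x := γ t with hx
  set Q := (fderiv ℝ p (x, a)).comp (ContinuousLinearMap.inl ℝ (Fin n → ℝ) (Fin n → ℝ)) with hQ
  have hp : HasFDerivAt (fun y => p (y, a)) Q x := H.p_x_hasFDerivAt ha x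
  have hsymm : ∀ u v, Q u v = Q v u := fun u v =>
    second_derivative_symmetric (H.S_deriv a ha) hp u v
  set v := vel g p (x, a) with hv
  have hV : HasFDerivAt (fun y => vel g p (y, a)) (fderiv ℝ (fun y => vel g p (y, a)) x) x :=
    ((H.vel_x_contDiff ha).differentiable one_ne_zero x).hasFDerivAt
  set V' := fderiv ℝ (fun y => vel g p (y, a)) x with hV'
  have hg : HasFDerivAt g (fderiv ℝ g x) x :=
    (H.metric.smooth.differentiable one_ne_zero x).hasFDerivAt
  -- first relation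
  have h1 : HasFDerivAt (fun y => p (y, a)) ((g x).comp V' + (fderiv ℝ g x).flip v) x := by
    have := hg.clm_apply hV
    have h2 : (fun y => g y (vel g p (y, a))) = fun y => p (y, a) := by
      ext1 y; exact H.g_vel (y, a)
    rwa [h2] at this
  have h3 : Q = (g x).comp V' + (fderiv ℝ g x).flip v := hp.unique h1
  -- second relation
  have h4 : HasFDerivAt (fun y => p (y, a) (vel g p (y, a)))
      ((p (x, a)).comp V' + Q.flip v) x := hp.clm_apply hV
  have h5 : (fun y => p (y, a) (vel g p (y, a))) = fun _ => 2 * h a := by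
    ext1 y; exact H.energy a ha y
  rw [h5] at h4
  have h6 : (p (x, a)).comp V' + Q.flip v = 0 := h4.unique (hasFDerivAt_const _ _)
  have h7 : p (x, a) (V' w) + Q w v = 0 := by
    have := congrArg (fun f : (Fin n → ℝ) →L[ℝ] ℝ => f w) h6
    simpa using this
  have h8 : Q w v = g x (V' w) v + fderiv ℝ g x w v v := by
    have := congrArg (fun f : (Fin n → ℝ) →L[ℝ] (Fin n → ℝ) →L[ℝ] ℝ => f w v) h3
    simpa using this
  have h9 : p (x, a) (V' w) = g x (V' w) v := by
    rw [← H.g_vel (x, a)]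
    exact H.metric.symm _ _ _
  have h10 : Q v w = fderiv ℝ g x w v v / 2 := by
    rw [hsymm v w]; linarith
  have h11 : (fun s => g (γ s) (vel g p (γ s, a)) w) = fun s => p (γ s, a) w := by
    ext1 s
    have := H.g_vel (γ s, a)
    exact congrArg (fun f : (Fin n → ℝ) →L[ℝ] ℝ => f w) this
  rw [h11, ← h10]
  have h12 : HasDerivAt (fun s => p (γ s, a)) (Q v) t := by
    have := HasFDerivAt.comp_hasDerivAt t (hp : HasFDerivAt (fun y => p (y, a)) Q (γ t)) (hγ t)
    exact this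
  have h13 := h12.clm_apply (hasDerivAt_const t w)
  simpa using h13

lemma Core.h_hasFDerivAt (H : Core g A p S Φ P P' h) {a : Fin n → ℝ} (ha : a ∈ A)
    (x : Fin n → ℝ) : HasFDerivAt h
      ((((fderiv ℝ p (x, a)).comp (ContinuousLinearMap.inr ℝ _ _)).flip) (vel g p (x, a))) a := by
  set R := (fderiv ℝ p (x, a)).comp (ContinuousLinearMap.inr ℝ (Fin n → ℝ) (Fin n → ℝ)) with hR
  have hp : HasFDerivAt (fun b => p (x, b)) R a := H.p_a_hasFDerivAt ha x
  have hv : HasFDerivAt (fun b => vel g p (x, b)) ((g x).inverse.comp R) a := by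
    have := (g x).inverse.hasFDerivAt (x := p (x, a)) |>.comp a hp
    exact this
  have h1 := hp.clm_apply hv
  have h2 : HasFDerivAt (fun b => p (x, b) (vel g p (x, b)) / 2)
      ((2 : ℝ)⁻¹ • ((p (x, a)).comp ((g x).inverse.comp R) + R.flip (vel g p (x, a)))) a := by
    have := h1.const_smul (2 : ℝ)⁻¹
    refine this.congr_of_eventuallyEq ?_
    filter_upwards with b
    simp [div_eq_inv_mul]
  have h3 : h =ᶠ[𝓝 a] fun b => p (x, b) (vel g p (x, b)) / 2 := by
    filter_upwards [H.isOpen.mem_nhds ha] with b hb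
    have := H.energy b hb x
    have h4 : p (x, b) (vel g p (x, b)) = 2 * h b := this
    rw [h4]; ring
  refine (h2.congr_of_eventuallyEq h3).congr_fderiv ?_
  ext1 b
  have h5 : p (x, a) ((g x).inverse (R b)) = R b (vel g p (x, a)) :=
    H.metric.inverse_symm x _ _
  simp only [smul_apply, add_apply,
    ContinuousLinearMap.comp_apply, ContinuousLinearMap.flip_apply, smul_eq_mul]
  rw [h5]; ring

lemma Core.Φ_along (H : Core g A p S Φ P P' h) {a : Fin n → ℝ} (ha : a ∈ A)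
    {γ : ℝ → (Fin n → ℝ)} (hγ : ∀ t, HasDerivAt γ (vel g p (γ t, a)) t) (t : ℝ) :
    Φ (γ t) a = Φ (γ 0) a + t • fderiv ℝ h a := by
  have h1 : ∀ s, HasDerivAt (fun s => Φ (γ s) a) (fderiv ℝ h a) s := by
    intro s
    have := HasFDerivAt.comp_hasDerivAt s (H.Φ_deriv a ha (γ s)) (hγ s)
    rw [(H.h_hasFDerivAt ha (γ s)).fderiv]
    exact this
  have h2 : ∀ s, HasDerivAt (fun s => Φ (γ s) a - s • fderiv ℝ h a) 0 s := by
    intro s
    have h3 := (h1 s).sub ((hasDerivAt_id s).smul_const (fderiv ℝ h a))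
    rw [one_smul, sub_self] at h3
    exact h3
  have h3 := is_const_of_deriv_eq_zero (f := fun s => Φ (γ s) a - s • fderiv ℝ h a)
    (fun s => (h2 s).differentiableAt) (fun s => (h2 s).deriv) t 0
  simp only [zero_smul, sub_zero] at h3
  rw [← h3]; abel

/-- The momenta `p (x, ·)` are locally injective in the parameter, uniformly in `x`. -/
lemma Core.p_locally_inj (H : Core g A p S Φ P P' h) {a : Fin n → ℝ} (ha : a ∈ A) :
    ∀ᶠ b in 𝓝 a, ∀ x, p (x, b) = p (x, a) → b = a := by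
  have key : ∀ᶠ b in 𝓝 a, ∀ x ∈ Icc (0 : Fin n → ℝ) 1, p (x, b) = p (x, a) → b = a := by
    have hpt : ∀ x : Fin n → ℝ, ∀ᶠ z : (Fin n → ℝ) × (Fin n → ℝ) in 𝓝 (x, a),
        p z = p (z.1, a) → z.2 = a := by
      intro x
      have hst : HasStrictFDerivAt (fun z : (Fin n → ℝ) × (Fin n → ℝ) => (z.1, p z))
          ((ContinuousLinearMap.fst ℝ _ _).prod (fderiv ℝ p (x, a))) (x, a) :=
        hasStrictFDerivAt_fst.prodMk ((H.p_contDiffAt ha x).hasStrictFDerivAt one_ne_zero)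
      obtain ⟨s, hs, hinj⟩ := exists_injOn hst (by
        rintro ⟨w, b⟩ hz
        simp only [ContinuousLinearMap.prod_apply, ContinuousLinearMap.coe_fst',
          Prod.mk_eq_zero] at hz
        obtain ⟨rfl, hz2⟩ := hz
        rw [H.p_inj a ha x b hz2]
        rfl)
      have h2 : Tendsto (fun z : (Fin n → ℝ) × (Fin n → ℝ) => (z.1, a)) (𝓝 (x, a))
          (𝓝 (x, a)) := by
        have : Continuous (fun z : (Fin n → ℝ) × (Fin n → ℝ) => (z.1, a)) := by fun_prop
        exact this.tendsto' _ _ rfl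
      filter_upwards [hs, h2 hs] with z hz1 hz2 heq
      have h3 : z = (z.1, a) := hinj hz1 hz2 (by simp [heq])
      rw [h3]
    have := (isCompact_Icc (a := (0 : Fin n → ℝ)) (b := 1)).eventually_forall_of_forall_eventually
      (x₀ := a) (P := fun b x => p (x, b) = p (x, a) → b = a) (by
        intro x _
        have h2 : Tendsto (fun z : (Fin n → ℝ) × (Fin n → ℝ) => (z.2, z.1)) (𝓝 (a, x))
            (𝓝 (x, a)) := by
          have : Continuous (fun z : (Fin n → ℝ) × (Fin n → ℝ) => (z.2, z.1)) := by fun_prop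
          exact this.tendsto' _ _ rfl
        exact h2.eventually (hpt x))
    exact this
  filter_upwards [key, H.isOpen.mem_nhds ha] with b hb hbA x hx
  obtain ⟨y, m, rfl, hy⟩ := exists_reduce x
  rw [H.p_per ha, H.p_per hbA] at hx
  exact hb y hy hx

end

end Helper59.TG
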