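import Pool.Agent.Helper59.TG.Core2

namespace Helper59.TG

open Set Filter Topology
open scoped NNReal

variable {n : ℕ}

/-- The linear form with coefficients `c`. -/
noncomputable def dotL (c : Fin n → ℝ) : (Fin n → ℝ) →L[ℝ] ℝ :=
  ∑ i, c i • ContinuousLinearMap.proj i

@[simp] lemma dotL_apply (c x : Fin n → ℝ) : dotL c x = ∑ i, c i * x i := by
  simp [dotL]

lemma continuous_dotL : Continuous (dotL : (Fin n → ℝ) → ((Fin n → ℝ) →L[ℝ] ℝ)) := by
  unfold dotL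
  fun_prop

lemma dotL_iv (c : Fin n → ℝ) (m : Fin n → ℤ) : dotL c (iv m) = ∑ i, c i * m i := by
  simp [iv]

section
variable {g : (Fin n → ℝ) → (Fin n → ℝ) →L[ℝ] (Fin n → ℝ) →L[ℝ] ℝ}
    {A : Set (Fin n → ℝ)} {p : (Fin n → ℝ) × (Fin n → ℝ) → ((Fin n → ℝ) →L[ℝ] ℝ)}
    {S : (Fin n → ℝ) → (Fin n → ℝ) → ℝ}
    {Φ : (Fin n → ℝ) → (Fin n → ℝ) → ((Fin n → ℝ) →L[ℝ] ℝ)}
    {P : (Fin n → ℝ) → (Fin n → ℝ)}
    {P' : (Fin n → ℝ) → ((Fin n → ℝ) →L[ℝ] (Fin n → ℝ))}
    {h : (Fin n → ℝ) → ℝ}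

/-- The squared distance of two velocities of the complete integral. -/
noncomputable def gap (g : (Fin n → ℝ) → (Fin n → ℝ) →L[ℝ] (Fin n → ℝ) →L[ℝ] ℝ)
    (p : (Fin n → ℝ) × (Fin n → ℝ) → ((Fin n → ℝ) →L[ℝ] ℝ)) (a : Fin n → ℝ)
    (z : (Fin n → ℝ) × (Fin n → ℝ)) : ℝ :=
  g z.1 (vel g p z - vel g p (z.1, a)) (vel g p z - vel g p (z.1, a))

lemma Core.gap_pos (H : Core g A p S Φ P P' h) (a b x : Fin n → ℝ)
    (hne : p (x, b) ≠ p (x, a)) : 0 < gap g p a (x, b) := by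
  apply H.metric.pos
  intro h0
  apply hne
  rw [← H.g_vel (x, b), ← H.g_vel (x, a)]
  rw [sub_eq_zero.mp h0]

lemma Core.sphere_bound (H : Core g A p S Φ P P' h) {a : Fin n → ℝ} (ha : a ∈ A) {δ : ℝ}
    (hδ : 0 < δ) (hsub : Metric.closedBall a δ ⊆ A)
    (hinj : ∀ b ∈ Metric.closedBall a δ, ∀ x, p (x, b) = p (x, a) → b = a) :
    ∃ c : ℝ, 0 < c ∧ ∀ b ∈ Metric.sphere a δ, ∀ x, c ≤ gap g p a (x, b) := by
  set K : Set ((Fin n → ℝ) × (Fin n → ℝ)) := Icc (0 : Fin n → ℝ) 1 ×ˢ Metric.sphere a δ with hK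
  have hcomp : IsCompact K := isCompact_Icc.prod (isCompact_sphere a δ)
  have hcont : ContinuousOn (gap g p a) K := by
    intro z hz
    obtain ⟨x, b⟩ := z
    have hb : b ∈ A := hsub (Metric.sphere_subset_closedBall hz.2)
    have h1 : ContinuousAt (vel g p) (x, b) := (H.vel_contDiffAt hb x).continuousAt
    have h2 : ContinuousAt (fun z : (Fin n → ℝ) × (Fin n → ℝ) => vel g p (z.1, a)) (x, b) :=
      ((H.vel_x_contDiff ha).continuous.comp continuous_fst).continuousAt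
    have h3 : ContinuousAt (fun z : (Fin n → ℝ) × (Fin n → ℝ) => g z.1) (x, b) :=
      (H.metric.smooth.continuous.comp continuous_fst).continuousAt
    exact ((h3.clm_apply (h1.sub h2)).clm_apply (h1.sub h2)).continuousWithinAt
  have hposK : ∀ z ∈ K, 0 < gap g p a z := by
    rintro ⟨x, b⟩ hz
    apply H.gap_pos
    intro heq
    have := hinj b (Metric.sphere_subset_closedBall hz.2) x heq
    have h2 : dist b a = δ := hz.2
    rw [this, dist_self] at h2
    linarith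
  have hred : ∀ c : ℝ, (∀ z ∈ K, c ≤ gap g p a z) →
      ∀ b ∈ Metric.sphere a δ, ∀ x, c ≤ gap g p a (x, b) := by
    intro c hc b hb x
    obtain ⟨y, m, rfl, hy⟩ := exists_reduce x
    have hbA : b ∈ A := hsub (Metric.sphere_subset_closedBall hb)
    have h1 : gap g p a (y + iv m, b) = gap g p a (y, b) := by
      simp only [gap, H.vel_per hbA, H.vel_per ha, H.metric.periodic]
    rw [h1]
    exact hc (y, b) ⟨hy, hb⟩
  by_cases hne : K.Nonempty
  · obtain ⟨z, hz, hmin⟩ := hcomp.exists_isMinOn hne hcont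
    exact ⟨gap g p a z, hposK z hz, hred _ fun w hw => hmin hw⟩
  · refine ⟨1, one_pos, hred 1 fun z hz => ?_⟩
    exact absurd ⟨z, hz⟩ hne

lemma Core.P_contOn (H : Core g A p S Φ P P' h) : ContinuousOn P A := fun b hb =>
  (H.P_deriv b hb).continuousAt.continuousWithinAt

lemma Core.oscillation (H : Core g A p S Φ P P' h) {a : Fin n → ℝ} {δ : ℝ}
    (hsub : Metric.closedBall a δ ⊆ A) :
    ∃ C : ℝ, 0 ≤ C ∧ ∀ b ∈ Metric.closedBall a δ, ∀ x y,
      |(S x b - dotL (P b) x) - (S y b - dotL (P b) y)| ≤ C := by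
  set K : Set ((Fin n → ℝ) × (Fin n → ℝ)) :=
    Icc (0 : Fin n → ℝ) 1 ×ˢ Metric.closedBall a δ with hK
  have hcomp : IsCompact K := isCompact_Icc.prod (isCompact_closedBall a δ)
  have hcont : ContinuousOn (fun z : (Fin n → ℝ) × (Fin n → ℝ) => p z - dotL (P z.2)) K := by
    apply ContinuousOn.sub
    · exact H.p_smooth.continuousOn.mono fun z hz => ⟨mem_univ _, hsub hz.2⟩
    · exact continuous_dotL.comp_continuousOn
        (H.P_contOn.comp continuous_snd.continuousOn fun z hz => hsub hz.2)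
  obtain ⟨C, hC⟩ := hcomp.exists_bound_of_continuousOn hcont
  refine ⟨2 * |C|, by positivity, ?_⟩
  have key : ∀ b ∈ Metric.closedBall a δ, ∀ x,
      |(S x b - dotL (P b) x) - (S 0 b - dotL (P b) 0)| ≤ |C| := by
    intro b hb x
    have hbA := hsub hb
    obtain ⟨y, m, rfl, hy⟩ := exists_reduce x
    have h1 : S (y + iv m) b - dotL (P b) (y + iv m) = S y b - dotL (P b) y := by
      rw [H.S_per b hbA, map_add, dotL_iv]; ring
    rw [h1]
    have hder : ∀ z ∈ Icc (0 : Fin n → ℝ) 1, HasFDerivWithinAt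
        (fun z => S z b - dotL (P b) z) (p (z, b) - dotL (P b)) (Icc (0 : Fin n → ℝ) 1) z :=
      fun z _ => ((H.S_deriv b hbA z).sub (dotL (P b)).hasFDerivAt).hasFDerivWithinAt
    have hbd : ∀ z ∈ Icc (0 : Fin n → ℝ) 1, ‖p (z, b) - dotL (P b)‖ ≤ C :=
      fun z hz => hC (z, b) ⟨hz, hb⟩
    have h0 : (0 : Fin n → ℝ) ∈ Icc (0 : Fin n → ℝ) 1 := ⟨le_rfl, zero_le_one⟩
    have h2 := (convex_Icc (0 : Fin n → ℝ) 1).norm_image_sub_le_of_norm_hasFDerivWithin_le
      hder hbd h0 hy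
    rw [sub_zero, Real.norm_eq_abs] at h2
    refine h2.trans ?_
    have hy1 : ‖y‖ ≤ 1 := by
      rw [pi_norm_le_iff_of_nonneg zero_le_one]
      intro i
      rw [Real.norm_eq_abs, abs_le]
      exact ⟨by linarith [hy.1 i, show (0 : Fin n → ℝ) i = 0 from rfl], hy.2 i⟩
    calc C * ‖y‖ ≤ |C| * ‖y‖ := by gcongr; exact le_abs_self C
      _ ≤ |C| * 1 := by gcongr
      _ = |C| := mul_one _
  intro b hb x y
  have h1 := abs_le.mp (key b hb x)
  have h2 := abs_le.mp (key b hb y)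
  rw [abs_le]
  constructor <;> linarith [h1.1, h1.2, h2.1, h2.2]

lemma Core.S_along (H : Core g A p S Φ P P' h) {a b : Fin n → ℝ} (ha : a ∈ A) (hb : b ∈ A)
    {γ : ℝ → (Fin n → ℝ)} (hγ : ∀ t, HasDerivAt γ (vel g p (γ t, a)) t) (t : ℝ) :
    HasDerivAt (fun s => S (γ s) b) (h a + h b - gap g p a (γ t, b) / 2) t := by
  have h1 : HasDerivAt (fun s => S (γ s) b) (p (γ t, b) (vel g p (γ t, a))) t :=
    HasFDerivAt.comp_hasDerivAt t (H.S_deriv b hb (γ t)) (hγ t)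
  have h2 : p (γ t, b) (vel g p (γ t, a)) = h a + h b - gap g p a (γ t, b) / 2 := by
    set x := γ t
    have e1 : g x (vel g p (x, b)) = p (x, b) := H.g_vel (x, b)
    have e2 : g x (vel g p (x, a)) = p (x, a) := H.g_vel (x, a)
    have e3 : p (x, b) (vel g p (x, b)) = 2 * h b := H.energy b hb x
    have e4 : p (x, a) (vel g p (x, a)) = 2 * h a := H.energy a ha x
    have e5 : p (x, a) (vel g p (x, b)) = p (x, b) (vel g p (x, a)) :=
      H.metric.inverse_symm x _ _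
    have e6 : gap g p a (x, b) = p (x, b) (vel g p (x, b)) - p (x, b) (vel g p (x, a))
        - (p (x, a) (vel g p (x, b)) - p (x, a) (vel g p (x, a))) := by
      simp only [gap, map_sub, sub_apply, e1, e2]
      ring
    rw [e6, e3, e4, e5]; ring
  rw [← h2]
  exact h1

lemma Core.S_le (H : Core g A p S Φ P P' h) {a b : Fin n → ℝ} (ha : a ∈ A) (hb : b ∈ A)
    {γ : ℝ → (Fin n → ℝ)} (hγ : ∀ t, HasDerivAt γ (vel g p (γ t, a)) t) {c : ℝ}
    (hc : ∀ x, c ≤ gap g p a (x, b)) {T : ℝ} (hT : 0 ≤ T) :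
    S (γ T) b - S (γ 0) b ≤ (h a + h b - c / 2) * T := by
  have h1 := fun t => H.S_along ha hb hγ t
  have h2 := image_sub_le_mul_sub_of_deriv_le (f := fun s => S (γ s) b)
    (fun t => (h1 t).differentiableAt) (C := h a + h b - c / 2)
    (fun t => by rw [(h1 t).deriv]; linarith [hc (γ t)]) hT
  simpa using h2

lemma Core.S_eq (H : Core g A p S Φ P P' h) {a : Fin n → ℝ} (ha : a ∈ A)
    {γ : ℝ → (Fin n → ℝ)} (hγ : ∀ t, HasDerivAt γ (vel g p (γ t, a)) t) {T : ℝ} (hT : 0 ≤ T) :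
    2 * h a * T ≤ S (γ T) a - S (γ 0) a := by
  have h1 := fun t => H.S_along ha ha hγ t
  have h2 := mul_sub_le_image_sub_of_le_deriv (f := fun s => S (γ s) a)
    (fun t => (h1 t).differentiableAt) (C := 2 * h a)
    (fun t => by
      rw [(h1 t).deriv]
      simp [gap]; linarith) hT
  simpa using h2

end

end Helper59.TG
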