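import Pool.Agent.Helper59.TG.Core3

namespace Helper59.TG

open Set Filter Topology
open scoped NNReal

variable {n : ℕ}

section
variable {g : (Fin n → ℝ) → (Fin n → ℝ) →L[ℝ] (Fin n → ℝ) →L[ℝ] ℝ}
    {A : Set (Fin n → ℝ)} {p : (Fin n → ℝ) × (Fin n → ℝ) → ((Fin n → ℝ) →L[ℝ] ℝ)}
    {S : (Fin n → ℝ) → (Fin n → ℝ) → ℝ}
    {Φ : (Fin n → ℝ) → (Fin n → ℝ) → ((Fin n → ℝ) →L[ℝ] ℝ)}
    {P : (Fin n → ℝ) → (Fin n → ℝ)}
    {P' : (Fin n → ℝ) → ((Fin n → ℝ) →L[ℝ] (Fin n → ℝ))}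
    {h : (Fin n → ℝ) → ℝ}

lemma Core.exists_flow (H : Core g A p S Φ P P' h) {a : Fin n → ℝ} (ha : a ∈ A)
    (x : Fin n → ℝ) : ∃ γ : ℝ → (Fin n → ℝ), γ 0 = x ∧
      ∀ t, HasDerivAt γ (vel g p (γ t, a)) t := by
  obtain ⟨K, L, hK, hL⟩ := H.vel_lip ha
  exact TG.exists_flow (fun x => vel g p (x, a)) hK hL x

/-- Comparison of the linear functional `P b` on the displacement. -/
lemma Core.displacement (H : Core g A p S Φ P P' h) {a : Fin n → ℝ} (ha : a ∈ A) {δ : ℝ}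
    (hδ : 0 < δ) (hsub : Metric.closedBall a δ ⊆ A)
    (hinj : ∀ b ∈ Metric.closedBall a δ, ∀ x, p (x, b) = p (x, a) → b = a) :
    ∃ c C : ℝ, 0 < c ∧ 0 ≤ C ∧ ∀ T : ℝ, 0 < T → ∃ ω : Fin n → ℝ,
      (∀ b ∈ Metric.sphere a δ, dotL (P b) ω - h b ≤ h a - c + C / T) ∧
      h a - C / T ≤ dotL (P a) ω - h a := by
  obtain ⟨c, hc, hcb⟩ := H.sphere_bound ha hδ hsub hinj
  obtain ⟨C, hC, hCb⟩ := H.oscillation hsub
  obtain ⟨γ, -, hγ⟩ := H.exists_flow ha 0
  refine ⟨c / 2, C, by positivity, hC, fun T hT => ⟨T⁻¹ • (γ T - γ 0), ?_, ?_⟩⟩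
  · intro b hb
    have hbA := hsub (Metric.sphere_subset_closedBall hb)
    have h1 := H.S_le ha hbA hγ (hcb b hb) hT.le
    have h2 := abs_le.mp (hCb b (Metric.sphere_subset_closedBall hb) (γ T) (γ 0))
    have h3 : dotL (P b) (γ T - γ 0) ≤ (h a + h b - c / 2) * T + C := by
      rw [map_sub]; linarith [h2.1]
    rw [map_smul, smul_eq_mul]
    have h4 : T⁻¹ * dotL (P b) (γ T - γ 0) ≤ T⁻¹ * ((h a + h b - c / 2) * T + C) := by
      gcongr
    have h5 : T⁻¹ * ((h a + h b - c / 2) * T + C) = h a + h b - c / 2 + C / T := by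
      field_simp
    linarith
  · have h1 := H.S_eq ha hγ hT.le
    have h2 := abs_le.mp (hCb a (Metric.mem_closedBall_self hδ.le) (γ T) (γ 0))
    have h3 : 2 * h a * T - C ≤ dotL (P a) (γ T - γ 0) := by
      rw [map_sub]; linarith [h2.2]
    rw [map_smul, smul_eq_mul]
    have h4 : T⁻¹ * (2 * h a * T - C) ≤ T⁻¹ * dotL (P a) (γ T - γ 0) := by
      gcongr
    have h5 : T⁻¹ * (2 * h a * T - C) = 2 * h a - C / T := by
      field_simp
    linarith

lemma exists_rational (ω : Fin n → ℝ) {B η : ℝ} (hη : 0 < η) :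
    ∃ N : ℕ, 0 < N ∧ ∃ m : Fin n → ℤ, ∀ c : Fin n → ℝ, ‖c‖ ≤ B →
      |dotL c (((N : ℝ)⁻¹ • iv m) - ω)| ≤ η := by
  obtain ⟨N, hN⟩ := exists_nat_gt (max 0 (n * |B| / η))
  have hN0 : (0 : ℝ) < N := lt_of_le_of_lt (le_max_left _ _) hN
  have hN1 : n * |B| / η < N := lt_of_le_of_lt (le_max_right _ _) hN
  refine ⟨N, by exact_mod_cast hN0, fun i => ⌊(N : ℝ) * ω i⌋, fun c hc => ?_⟩
  rw [dotL_apply]
  refine (Finset.abs_sum_le_sum_abs _ _).trans ?_
  have h1 : ∀ i ∈ Finset.univ,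
      |c i * ((((N : ℝ)⁻¹ • iv fun i => ⌊(N : ℝ) * ω i⌋) - ω) i)| ≤ |B| * (N : ℝ)⁻¹ := by
    intro i _
    rw [abs_mul]
    have h2 : |c i| ≤ |B| := by
      have := norm_le_pi_norm c i
      rw [Real.norm_eq_abs] at this
      exact (this.trans hc).trans (le_abs_self B)
    have h3 : |(((N : ℝ)⁻¹ • iv fun i => ⌊(N : ℝ) * ω i⌋) - ω) i| ≤ (N : ℝ)⁻¹ := by
      have h4 : (((N : ℝ)⁻¹ • iv fun i => ⌊(N : ℝ) * ω i⌋) - ω) i
          = - ((N : ℝ)⁻¹ * Int.fract ((N : ℝ) * ω i)) := by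
        simp only [Pi.sub_apply, Pi.smul_apply, iv, smul_eq_mul, Int.fract]
        field_simp
        ring
      rw [h4, abs_neg, abs_of_nonneg (by positivity)]
      calc (N : ℝ)⁻¹ * Int.fract ((N : ℝ) * ω i) ≤ (N : ℝ)⁻¹ * 1 := by
            gcongr; exact (Int.fract_lt_one _).le
        _ = _ := mul_one _
    gcongr
  refine (Finset.sum_le_sum h1).trans ?_
  rw [Finset.sum_const, Finset.card_univ, Fintype.card_fin, nsmul_eq_mul]
  rw [div_lt_iff₀ hη] at hN1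
  rw [← mul_assoc, ← div_eq_mul_inv, div_le_iff₀ hN0]
  linarith

lemma Core.exists_resonance (H : Core g A p S Φ P P' h) {a : Fin n → ℝ} (ha : a ∈ A)
    {ρ : ℝ} (hρ : 0 < ρ) : ∃ b ∈ A, dist b a < ρ ∧ ∃ N : ℕ, 0 < N ∧ ∃ m : Fin n → ℤ,
      ∀ w, ∑ i, P' b w i * m i = N * fderiv ℝ h b w := by
  -- the radius
  obtain ⟨δ, hδ, hball⟩ := Metric.nhds_basis_closedBall.mem_iff.mp
    (inter_mem (inter_mem (H.isOpen.mem_nhds ha) (H.p_locally_inj ha))
      (Metric.ball_mem_nhds a hρ))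
  have hsub : Metric.closedBall a δ ⊆ A := fun b hb => (hball hb).1.1
  have hinj : ∀ b ∈ Metric.closedBall a δ, ∀ x, p (x, b) = p (x, a) → b = a :=
    fun b hb => (hball hb).1.2
  have hsub2 : Metric.closedBall a δ ⊆ Metric.ball a ρ := fun b hb => (hball hb).2
  obtain ⟨c, C, hc, hC, hdisp⟩ := H.displacement ha hδ hsub hinj
  -- the time
  obtain ⟨T, hT, hT2⟩ : ∃ T : ℝ, 0 < T ∧ C / T ≤ c / 8 := by
    refine ⟨(8 * C + 1) / c, by positivity, ?_⟩
    rw [div_div_eq_mul_div, div_le_div_iff₀ (by positivity) (by norm_num)]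
    nlinarith
  obtain ⟨ω, hω1, hω2⟩ := hdisp T hT
  obtain ⟨B, hB⟩ := (isCompact_closedBall a δ).exists_bound_of_continuousOn
    (H.P_contOn.mono hsub)
  obtain ⟨N, hN, m, hm⟩ := exists_rational ω (B := B) (η := c / 8) (by positivity)
  set r : Fin n → ℝ := (N : ℝ)⁻¹ • iv m with hr
  have hPr : ∀ b ∈ Metric.closedBall a δ, |dotL (P b) r - dotL (P b) ω| ≤ c / 8 := by
    intro b hb
    rw [← map_sub]
    exact hm _ (hB b hb)
  set F : (Fin n → ℝ) → ℝ := fun b => dotL (P b) r - h b with hF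
  have hF1 : ∀ b ∈ A, HasFDerivAt F ((dotL r).comp (P' b) - fderiv ℝ h b) b := by
    intro b hb
    have h1 : HasFDerivAt (fun b => dotL (P b) r) ((dotL r).comp (P' b)) b := by
      have h2 : (fun b => dotL (P b) r) = fun b => dotL r (P b) := by
        ext1 b; simp only [dotL_apply]; exact Finset.sum_congr rfl fun i _ => mul_comm _ _
      rw [h2]
      exact (dotL r).hasFDerivAt.comp b (H.P_deriv b hb)
    have h3 : HasFDerivAt h (fderiv ℝ h b) b :=
      (H.h_hasFDerivAt hb 0).differentiableAt.hasFDerivAt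
    exact h1.sub h3
  have hFc : ContinuousOn F (Metric.closedBall a δ) := fun b hb =>
    (hF1 b (hsub hb)).continuousAt.continuousWithinAt
  obtain ⟨b, hb, hmax⟩ := (isCompact_closedBall a δ).exists_isMaxOn
    ⟨a, Metric.mem_closedBall_self hδ.le⟩ hFc
  have hFa : h a - c / 4 ≤ F a := by
    have h1 := abs_le.mp (hPr a (Metric.mem_closedBall_self hδ.le))
    simp only [hF]
    linarith [h1.1]
  have hFab : F a ≤ F b := hmax (Metric.mem_closedBall_self hδ.le)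
  have hnot : b ∉ Metric.sphere a δ := by
    intro hbs
    have h1 := abs_le.mp (hPr b hb)
    have h2 := hω1 b hbs
    have h3 : F b ≤ h a - c + c / 4 := by
      simp only [hF]
      linarith [h1.2]
    linarith
  have hbball : b ∈ Metric.ball a δ := by
    rw [Metric.mem_ball]
    rcases lt_or_eq_of_le (Metric.mem_closedBall.mp hb) with h1 | h1
    · exact h1
    · exact absurd h1 hnot
  have hloc : IsLocalMax F b := hmax.isLocalMax (mem_of_superset
    (Metric.isOpen_ball.mem_nhds hbball) Metric.ball_subset_closedBall)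
  have hzero := hloc.hasFDerivAt_eq_zero (hF1 b (hsub hb))
  refine ⟨b, hsub hb, hsub2 hb, N, hN, m, fun w => ?_⟩
  have h1 := congrArg (fun f : (Fin n → ℝ) →L[ℝ] ℝ => f w) hzero
  simp only [sub_apply, ContinuousLinearMap.comp_apply, zero_apply, dotL_apply] at h1
  have h2 : fderiv ℝ h b w = ∑ i, r i * P' b w i := by linarith
  rw [h2, Finset.mul_sum]
  have hN' : (N : ℝ) ≠ 0 := by exact_mod_cast hN.ne'
  refine Finset.sum_congr rfl fun i _ => ?_
  simp only [hr, Pi.smul_apply, iv, smul_eq_mul]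
  field_simp

end

end Helper59.TG
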