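import Pool.Agent.Helper59.TG.Core4

namespace Helper59.TG

open Set Filter Topology
open scoped NNReal

variable {n : ℕ}

section
variable {g : (Fin n → ℝ) → (Fin n → ℝ) →L[ℝ] (Fin n → ℝ) →L[ℝ] ℝ}
    {A : Set (Fin n → ℝ)} {p : (Fin n → ℝ) × (Fin n → ℝ) → ((Fin n → ℝ) →L[ℝ] ℝ)}
    {S : (Fin n → ℝ) → (Fin n → ℝ) → ℝ}
    {Φ : (Fin n → ℝ) → (Fin n → ℝ) → ((Fin n → ℝ) →L[ℝ] ℝ)}
    {P : (Fin n → ℝ) → (Fin n → ℝ)}
    {P' : (Fin n → ℝ) → ((Fin n → ℝ) →L[ℝ] (Fin n → ℝ))}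
    {h : (Fin n → ℝ) → ℝ}

/-- `Φ (·, b)` is locally injective. -/
lemma Core.Φ_injOn (H : Core g A p S Φ P P' h) {b : Fin n → ℝ} (hb : b ∈ A) (z : Fin n → ℝ) :
    ∃ s ∈ 𝓝 z, InjOn (fun y => Φ y b) s := by
  have hcont : ContinuousAt (fun y => (((fderiv ℝ p (y, b)).comp
      (ContinuousLinearMap.inr ℝ (Fin n → ℝ) (Fin n → ℝ))).flip)) z := by
    have h1 : ContinuousAt (fderiv ℝ p) (z, b) := by
      have h2 : ContDiffOn ℝ 1 p (univ ×ˢ A) := H.p_smooth
      have h3 := h2.continuousOn_fderiv_of_isOpen (isOpen_univ.prod H.isOpen) le_rfl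
      exact h3.continuousAt (H.mem_nhds hb z)
    have h4 : ContinuousAt (fun y : Fin n → ℝ => fderiv ℝ p (y, b)) z := by
      have h5 : ContinuousAt (fun y : Fin n → ℝ => (y, b)) z := by fun_prop
      exact ContinuousAt.comp (f := fun y : Fin n → ℝ => (y, b)) h1 h5
    have h6 : ContinuousAt (fun y : Fin n → ℝ => (fderiv ℝ p (y, b)).comp
        (ContinuousLinearMap.inr ℝ (Fin n → ℝ) (Fin n → ℝ))) z :=
      h4.clm_comp continuousAt_const
    exact ((ContinuousLinearMap.flipₗᵢ ℝ (Fin n → ℝ) (Fin n → ℝ) ℝ).continuous.continuousAt).comp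
      h6
  have hst : HasStrictFDerivAt (fun y => Φ y b) (((fderiv ℝ p (z, b)).comp
      (ContinuousLinearMap.inr ℝ (Fin n → ℝ) (Fin n → ℝ))).flip) z :=
    hasStrictFDerivAt_of_hasFDerivAt_of_continuousAt
      (Eventually.of_forall fun y => H.Φ_deriv b hb y) hcont
  refine exists_injOn hst ?_
  intro w hw
  have hinv : ((fderiv ℝ p (z, b)).comp
      (ContinuousLinearMap.inr ℝ (Fin n → ℝ) (Fin n → ℝ))).IsInvertible :=
    isInvertible_of_inj _ (fun c hc => H.p_inj b hb z c hc)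
  ext i
  obtain ⟨c, hc⟩ := hinv.surjective (ContinuousLinearMap.proj i)
  have h1 := congrArg (fun f : (Fin n → ℝ) →L[ℝ] ℝ => f c) hw
  simp only [ContinuousLinearMap.flip_apply, zero_apply] at h1
  rw [hc] at h1
  simpa using h1

/-- Resonant tori are filled by closed orbits. -/
lemma Core.closed (H : Core g A p S Φ P P' h) {b : Fin n → ℝ} (hb : b ∈ A) {N : ℕ} (hN : 0 < N)
    {m : Fin n → ℤ} (hres : ∀ w, ∑ i, P' b w i * m i = N * fderiv ℝ h b w)
    {γ : ℝ → (Fin n → ℝ)} (hγ : ∀ t, HasDerivAt γ (vel g p (γ t, b)) t) :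
    ∃ T : ℝ, 0 < T ∧ ∃ m' : Fin n → ℤ, ∀ t, γ (t + T) = γ t + iv m' := by
  set y : ℕ → (Fin n → ℝ) := fun k => γ (k * N) + iv (fun i => - (k * m i)) with hy
  have hΦ : ∀ k, Φ (y k) b = Φ (γ 0) b := by
    intro k
    ext1 w
    simp only [hy]
    rw [H.Φ_per b hb, H.Φ_along hb hγ (k * N)]
    simp only [add_apply, smul_apply, smul_eq_mul]
    have h1 : ∑ i, P' b w i * ((-(k * m i) : ℤ) : ℝ) = - (k * (N * fderiv ℝ h b w)) := by
      rw [← hres w, Finset.mul_sum, ← Finset.sum_neg_distrib]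
      refine Finset.sum_congr rfl fun i _ => ?_
      push_cast
      ring
    rw [h1]; ring
  -- boundedness
  have hbd : ∀ i, ∃ R : ℝ, ∀ k, |y k i| ≤ R := by
    intro i
    have hsurj : Function.Surjective (P' b) := by
      have hinj : Function.Injective (P' b : (Fin n → ℝ) →ₗ[ℝ] (Fin n → ℝ)) := by
        rw [injective_iff_map_eq_zero]
        exact H.P_inj b hb
      exact LinearMap.surjective_of_injective hinj
    obtain ⟨w, hw⟩ := hsurj (Pi.single i 1)
    obtain ⟨C, hC⟩ := bdd_of_periodic (fun x => Φ x b w - dotL (P' b w) x) (by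
        have h1 : Continuous (fun x => Φ x b) := continuous_iff_continuousAt.mpr
          fun x => (H.Φ_deriv b hb x).continuousAt
        exact (h1.clm_apply continuous_const).sub (dotL _).continuous) (by
        intro x m
        rw [H.Φ_per b hb, map_add, dotL_iv]; ring)
    refine ⟨C + |Φ (γ 0) b w|, fun k => ?_⟩
    have h1 := hC (y k)
    rw [hΦ k, Real.norm_eq_abs] at h1
    have h2 : dotL (P' b w) (y k) = y k i := by
      rw [hw, dotL_apply]
      simp [Pi.single_apply]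
    rw [h2] at h1
    have h3 := abs_le.mp h1
    have h4 := abs_le.mp (le_refl |Φ (γ 0) b w|)
    rw [abs_le]
    constructor <;> linarith [h3.1, h3.2, h4.1, h4.2]
  choose R hR using hbd
  have hmem : ∀ k, y k ∈ Icc (-R) R := fun k =>
    ⟨fun i => (abs_le.mp (hR i k)).1, fun i => (abs_le.mp (hR i k)).2⟩
  -- not injective
  have hnotinj : ¬ Function.Injective y := by
    intro hinj
    have hinf : (range y).Infinite := infinite_range_of_injective hinj
    obtain ⟨z, -, hz⟩ := hinf.exists_accPt_of_subset_isCompact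
      (isCompact_Icc (a := -R) (b := R)) (by rintro _ ⟨k, rfl⟩; exact hmem k)
    obtain ⟨s, hs, hsinj⟩ := H.Φ_injOn hb z
    rw [accPt_iff_nhds] at hz
    obtain ⟨y1, ⟨hy1s, k1, hk1⟩, hne1⟩ := hz s hs
    have hs2 : s ∩ {y1}ᶜ ∈ 𝓝 z := inter_mem hs (isOpen_compl_singleton.mem_nhds (Ne.symm hne1))
    obtain ⟨y2, ⟨⟨hy2s, hy2ne⟩, k2, hk2⟩, -⟩ := hz _ hs2
    apply hy2ne
    rw [mem_singleton_iff]
    apply hsinj hy2s hy1s
    simp only
    rw [← hk1, ← hk2, hΦ, hΦ]
  obtain ⟨k, l, hkl, hne⟩ : ∃ k l, y k = y l ∧ k < l := by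
    rw [Function.not_injective_iff] at hnotinj
    obtain ⟨k, l, h1, h2⟩ := hnotinj
    rcases lt_or_gt_of_ne h2 with h3 | h3
    · exact ⟨k, l, h1, h3⟩
    · exact ⟨l, k, h1.symm, h3⟩
  have hkl' : (k : ℝ) < l := by exact_mod_cast hne
  have hN' : (0 : ℝ) < N := by exact_mod_cast hN
  set m' : Fin n → ℤ := fun i => ((l : ℤ) - k) * m i with hm'
  set T : ℝ := (l - k) * N with hT
  refine ⟨T, mul_pos (by linarith) hN', m', ?_⟩
  obtain ⟨K, L, hK, hL⟩ := H.vel_lip hb
  have heq : (fun t => γ (t + T)) = fun t => γ t + iv m' := by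
    refine ODE_solution_unique_univ (v := fun _ x => vel g p (x, b)) (s := fun _ => univ)
      (K := K) (t₀ := k * N) (fun t => hK.lipschitzOnWith) ?_ ?_ ?_
    · intro t
      refine ⟨?_, mem_univ _⟩
      exact (hγ (t + T)).comp_add_const t T
    · intro t
      refine ⟨?_, mem_univ _⟩
      rw [H.vel_per hb]
      exact (hγ t).add_const _
    · have h1 : (k : ℝ) * N + T = l * N := by rw [hT]; ring
      rw [h1]
      have h2 : γ (l * N) + iv (fun i => -(l * m i)) = γ (k * N) + iv (fun i => -(k * m i)) :=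
        hkl.symm
      have h3 : iv m' = iv (fun i => -(k * m i)) - iv (fun i => -(l * m i)) := by
        ext i; simp only [iv, Pi.sub_apply, hm']; push_cast; ring
      rw [h3, ← add_sub_assoc, ← h2]; abel
  intro t
  exact congrFun heq t

/-- Main theorem for the technical data. -/
theorem Core.main (H : Core g A p S Φ P P' h) {a : Fin n → ℝ} (ha : a ∈ A) (x : Fin n → ℝ)
    {ε : ℝ} (hε : 0 < ε) : ∃ γ v : ℝ → (Fin n → ℝ), IsClosedGeodesic g γ v ∧ γ 0 = x ∧
      dist (v 0) (vel g p (x, a)) < ε := by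
  have hc : ContinuousAt (fun b => vel g p (x, b)) a := by
    have h1 : ContinuousAt (fun b : Fin n → ℝ => (x, b)) a := by fun_prop
    exact ContinuousAt.comp (f := fun b : Fin n → ℝ => (x, b))
      (H.vel_contDiffAt ha x).continuousAt h1
  obtain ⟨ρ, hρ, hρ2⟩ := Metric.continuousAt_iff.mp hc ε hε
  obtain ⟨b, hb, hba, N, hN, m, hres⟩ := H.exists_resonance ha hρ
  obtain ⟨γ, hγ0, hγ⟩ := H.exists_flow hb x
  obtain ⟨T, hT, m', hm'⟩ := H.closed hb hN hres hγ
  refine ⟨γ, fun t => vel g p (γ t, b), ⟨H.isGeodesic hb hγ, H.vel_ne hb _, T, hT, m', hm'⟩,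
    hγ0, ?_⟩
  simp only
  rw [hγ0]
  exact hρ2 hba

end

end Helper59.TG
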