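import Mathlib

/-! Project TG (MP_478427_gt): definitions. -/

namespace Helper59.TG

open Set Filter Topology

/-- The integer vector `m` as a real vector. -/
def iv {n : ℕ} (m : Fin n → ℤ) : Fin n → ℝ := fun i => (m i : ℝ)

/-- A `C¹` Riemannian metric on the torus `ℝⁿ / ℤⁿ`, as a `ℤⁿ`-periodic metric on `ℝⁿ`. -/
structure IsTorusMetric {n : ℕ} (g : (Fin n → ℝ) → (Fin n → ℝ) →L[ℝ] (Fin n → ℝ) →L[ℝ] ℝ) :
    Prop where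
  smooth : ContDiff ℝ 1 g
  symm : ∀ x v w, g x v w = g x w v
  pos : ∀ x v, v ≠ 0 → 0 < g x v v
  periodic : ∀ x m, g (x + iv m) = g x

/-- `γ` is a geodesic of the metric `g` on `ℝⁿ` and `v` is its velocity: the Euler-Lagrange
equation `d/dt ∂L/∂v = ∂L/∂x` of `L(x, v) = g_x(v, v) / 2`. -/
def IsGeodesic {n : ℕ} (g : (Fin n → ℝ) → (Fin n → ℝ) →L[ℝ] (Fin n → ℝ) →L[ℝ] ℝ)
    (γ v : ℝ → (Fin n → ℝ)) : Prop :=
  (∀ t, HasDerivAt γ (v t) t) ∧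
  ∀ w t, HasDerivAt (fun s => g (γ s) (v s) w) (fderiv ℝ g (γ t) w (v t) (v t) / 2) t

/-- `γ` is the lift to `ℝⁿ` of a closed geodesic of the torus `ℝⁿ / ℤⁿ` with the metric `g`
and `v` is its velocity. -/
def IsClosedGeodesic {n : ℕ} (g : (Fin n → ℝ) → (Fin n → ℝ) →L[ℝ] (Fin n → ℝ) →L[ℝ] ℝ)
    (γ v : ℝ → (Fin n → ℝ)) : Prop :=
  IsGeodesic g γ v ∧ v 0 ≠ 0 ∧
    ∃ T : ℝ, 0 < T ∧ ∃ m : Fin n → ℤ, ∀ t, γ (t + T) = γ t + iv m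

/-- `S` is a `C²` complete integral of the Hamilton-Jacobi equation of `g` for parameters in the
set `A`, with periods `P` and energy `h`, and nondegenerate. -/
structure IsCompleteIntegral {n : ℕ} (g : (Fin n → ℝ) → (Fin n → ℝ) →L[ℝ] (Fin n → ℝ) →L[ℝ] ℝ)
    (A : Set (Fin n → ℝ)) (S : (Fin n → ℝ) × (Fin n → ℝ) → ℝ)
    (P : (Fin n → ℝ) → (Fin n → ℝ)) (h : (Fin n → ℝ) → ℝ) : Prop where
  smooth : ContDiffOn ℝ 2 S (univ ×ˢ A)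
  periods : ∀ a ∈ A, ∀ x m, S (x + iv m, a) = S (x, a) + ∑ i, P a i * m i
  energy_pos : ∀ a ∈ A, 0 < h a
  hamiltonJacobi : ∀ a ∈ A, ∀ x, ∃ X, (∀ w, g x X w = fderiv ℝ S (x, a) (w, 0)) ∧
    g x X X / 2 = h a
  hessian : ∀ a ∈ A, ∀ x b, (∀ w, fderiv ℝ (fderiv ℝ S) (x, a) (0, b) (w, 0) = 0) → b = 0
  periodsJacobian : ∀ a ∈ A, ∀ b, fderiv ℝ P a b = 0 → b = 0

end Helper59.TG
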