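import Pool.Agent.Helper59.TG.Basic

namespace Helper59.TG

open Set Filter Topology
open scoped NNReal

variable {E : Type*} [NormedAddCommGroup E] [NormedSpace ℝ E] [CompleteSpace E]

lemma local_flow (X : E → E) {K : ℝ≥0} (hX : LipschitzWith K X) {L : ℝ≥0}
    (hb : ∀ x, ‖X x‖ ≤ L) (x₀ : E) (N : ℕ) :
    ∃ γ : ℝ → E, γ 0 = x₀ ∧ ∀ t ∈ Ioo (-(N + 1) : ℝ) (N + 1), HasDerivAt γ (X (γ t)) t := by
  have h0 : (0 : ℝ) ∈ Icc (-(N + 1) : ℝ) (N + 1) := by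
    constructor <;> [linarith [N.cast_nonneg (α := ℝ)]; linarith [N.cast_nonneg (α := ℝ)]]
  have hPL : IsPicardLindelof (fun _ => X) (⟨0, h0⟩ : Icc (-(N + 1) : ℝ) (N + 1)) x₀
      (L * (N + 1)) 0 L K := by
    refine ⟨fun t _ => hX.lipschitzOnWith, fun x _ => continuousOn_const,
      fun t _ x _ => hb x, ?_⟩
    simp
  obtain ⟨γ, h1, h2⟩ := hPL.exists_eq_forall_mem_Icc_hasDerivWithinAt₀
  refine ⟨γ, h1, fun t ht => ?_⟩
  exact (h2 t ⟨ht.1.le, ht.2.le⟩).hasDerivAt (Icc_mem_nhds ht.1 ht.2)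

/-- Global solutions for bounded Lipschitz vector fields. -/
lemma exists_flow (X : E → E) {K : ℝ≥0} (hX : LipschitzWith K X) {L : ℝ≥0}
    (hb : ∀ x, ‖X x‖ ≤ L) (x₀ : E) :
    ∃ γ : ℝ → E, γ 0 = x₀ ∧ ∀ t, HasDerivAt γ (X (γ t)) t := by
  choose γ h0 hd using local_flow X hX hb x₀
  have huniq : ∀ M N : ℕ, M ≤ N → EqOn (γ M) (γ N) (Ioo (-(M + 1) : ℝ) (M + 1)) := by
    intro M N hMN
    have hMN' : (M : ℝ) ≤ N := by exact_mod_cast hMN
    refine ODE_solution_unique_of_mem_Ioo (v := fun _ => X) (s := fun _ => univ) (K := K)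
      (t₀ := 0) (fun t _ => hX.lipschitzOnWith) ?_ ?_ ?_ ?_
    · constructor <;> linarith [M.cast_nonneg (α := ℝ)]
    · intro t ht; exact ⟨hd M t ht, mem_univ _⟩
    · intro t ht
      exact ⟨hd N t ⟨by linarith [ht.1], by linarith [ht.2]⟩, mem_univ _⟩
    · rw [h0, h0]
  refine ⟨fun t => γ ⌈|t|⌉₊ t, ?_, ?_⟩
  · simp [h0]
  · intro t
    set N : ℕ := ⌈|t|⌉₊ with hN
    have ht : t ∈ Ioo (-(N + 1) : ℝ) (N + 1) := by
      have := Nat.le_ceil |t|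
      rw [← hN] at this
      have h2 := abs_le.mp this
      constructor <;> linarith [h2.1, h2.2]
    have hev : (fun s => γ ⌈|s|⌉₊ s) =ᶠ[𝓝 t] γ (N + 1) := by
      filter_upwards [Ioo_mem_nhds ht.1 ht.2] with s hs
      have hs' : |s| ≤ ((N + 1 : ℕ) : ℝ) := by
        push_cast
        exact abs_le.mpr ⟨hs.1.le, hs.2.le⟩
      have hle : ⌈|s|⌉₊ ≤ N + 1 := Nat.ceil_le.mpr hs'
      apply huniq _ _ hle
      have h3 := Nat.le_ceil |s|
      have h4 := abs_le.mp h3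
      constructor <;> linarith [h4.1, h4.2]
    have hd' := hd (N + 1) t ⟨by push_cast; linarith [ht.1], by push_cast; linarith [ht.2]⟩
    have hval : γ ⌈|t|⌉₊ t = γ (N + 1) t := hev.self_of_nhds
    refine HasDerivAt.congr_of_eventuallyEq ?_ hev
    show HasDerivAt (γ (N + 1)) (X (γ ⌈|t|⌉₊ t)) t
    rw [hval]
    exact hd'

end Helper59.TG
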