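import Pool.Agent.Helper59.TG.Separated

namespace Helper59.TG

open Set Filter Topology

variable {n : ℕ}

/-- The determinant as a function of the rows. -/
noncomputable def detRow (M : Fin n → Fin n → ℝ) : ℝ := Matrix.detRowAlternating M

lemma detRow_eq (M : Fin n → Fin n → ℝ) : detRow M = Matrix.det (Matrix.of M) := rfl

/-- The determinant in its `k`-th row is a linear map. -/
noncomputable def detLin (M : Fin n → Fin n → ℝ) (k : Fin n) : (Fin n → ℝ) →ₗ[ℝ] ℝ :=
  (Matrix.detRowAlternating (n := Fin n) (R := ℝ)).toMultilinearMap.toLinearMap M k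

lemma detLin_apply (M : Fin n → Fin n → ℝ) (k : Fin n) (v : Fin n → ℝ) :
    detLin M k v = detRow (Function.update M k v) := rfl

lemma det_bound_closure (R : Fin n → Set (Fin n → ℝ)) (σ d : ℝ)
    (h0 : ∀ M : Fin n → Fin n → ℝ, (∀ i, M i ∈ R i) → d ≤ σ * detRow M)
    (M : Fin n → Fin n → ℝ) (hM : ∀ i, M i ∈ closure (convexHull ℝ (R i))) :
    d ≤ σ * detRow M := by
  have key : ∀ s : Finset (Fin n), ∀ M : Fin n → Fin n → ℝ,
      (∀ i ∈ s, M i ∈ closure (convexHull ℝ (R i))) → (∀ i, i ∉ s → M i ∈ R i) →
      d ≤ σ * detRow M := by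
    intro s
    induction s using Finset.induction_on with
    | empty =>
      intro M _ h2
      exact h0 M fun i => h2 i (by simp)
    | insert k s hk ih =>
      intro M h1 h2
      set H : Set (Fin n → ℝ) := {v | d ≤ (σ • detLin M k) v} with hH
      have hconv : Convex ℝ H := (convex_Ici d).linear_preimage (σ • detLin M k)
      have hclosed : IsClosed H :=
        isClosed_Ici.preimage (LinearMap.continuous_of_finiteDimensional (σ • detLin M k))
      have hsub : R k ⊆ H := by
        intro v hv
        show d ≤ (σ • detLin M k) v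
        rw [LinearMap.smul_apply, detLin_apply, smul_eq_mul]
        apply ih
        · intro i hi
          have hne : i ≠ k := fun h => hk (h ▸ hi)
          rw [Function.update_of_ne hne]
          exact h1 i (Finset.mem_insert_of_mem hi)
        · intro i hi
          by_cases hik : i = k
          · subst hik
            rw [Function.update_self]
            exact hv
          · rw [Function.update_of_ne hik]
            exact h2 i (by simp [hik, hi])
      have hcl : closure (convexHull ℝ (R k)) ⊆ H :=
        closure_minimal (convexHull_min hsub hconv) hclosed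
      have h3 : M k ∈ H := hcl (h1 k (Finset.mem_insert_self k s))
      have h4 : d ≤ (σ • detLin M k) (M k) := h3
      rw [LinearMap.smul_apply, detLin_apply, smul_eq_mul, Function.update_eq_self] at h4
      exact h4
  exact key Finset.univ M (fun i _ => hM i) (fun i hi => absurd (Finset.mem_univ i) hi)

/-- If all choices of rows have nonzero determinant, some vector is positive on all rows. -/
theorem exists_positive (φ : Fin n → Fin n → ℝ → ℝ) (hc : ∀ i j, Continuous (φ i j))
    (hper : ∀ i j s, φ i j (s + 1) = φ i j s)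
    (hdet : ∀ x : Fin n → ℝ, (Matrix.of fun i j => φ i j (x i)).det ≠ 0) :
    ∃ a : Fin n → ℝ, ∀ i s, 0 < ∑ j, φ i j s * a j := by
  set r : Fin n → ℝ → (Fin n → ℝ) := fun i s j => φ i j s with hr
  have hrc : ∀ i, Continuous (r i) := fun i => continuous_pi fun j => hc i j
  set R : Fin n → Set (Fin n → ℝ) := fun i => range (r i) with hR
  have hRcomp : ∀ i, IsCompact (R i) := by
    intro i
    have h1 : R i = r i '' Icc 0 1 := by
      apply Subset.antisymm
      · rintro _ ⟨s, rfl⟩
        refine ⟨Int.fract s, ⟨Int.fract_nonneg s, (Int.fract_lt_one s).le⟩, ?_⟩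
        have hp : Function.Periodic (r i) 1 := fun s => by
          ext j; exact hper i j s
        rw [show Int.fract s = s - ⌊s⌋ * 1 by rw [mul_one]; rfl]
        exact hp.sub_int_mul_eq ⌊s⌋
      · rintro _ ⟨s, _, rfl⟩; exact ⟨s, rfl⟩
    rw [h1]
    exact isCompact_Icc.image (hrc i)
  -- the sign
  set D : (Fin n → ℝ) → ℝ := fun x => detRow (fun i => r i (x i)) with hD
  have hDc : Continuous D := by
    have h1 : Continuous (fun x : Fin n → ℝ => (Matrix.of fun i j => φ i j (x i))) := by
      refine continuous_matrix fun i j => ?_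
      exact (hc i j).comp (continuous_apply i)
    exact h1.matrix_det
  have hD0 : ∀ x, D x ≠ 0 := hdet
  obtain ⟨σ, hσ⟩ : ∃ σ : ℝ, ∀ x, 0 < σ * D x := by
    rcases lt_or_gt_of_ne (hD0 0) with h1 | h1
    · refine ⟨-1, fun x => ?_⟩
      by_contra hx
      have hx' : 0 ≤ D x := by linarith
      obtain ⟨y, hy⟩ := mem_range_of_exists_le_of_exists_ge hDc ⟨0, h1.le⟩ ⟨x, hx'⟩
      exact hD0 y hy
    · refine ⟨1, fun x => ?_⟩
      by_contra hx
      have hx' : D x ≤ 0 := by linarith
      obtain ⟨y, hy⟩ := mem_range_of_exists_le_of_exists_ge hDc ⟨x, hx'⟩ ⟨0, h1.le⟩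
      exact hD0 y hy
  -- lower bound of the determinant
  obtain ⟨d, hd, hdb⟩ : ∃ d : ℝ, 0 < d ∧ ∀ M : Fin n → Fin n → ℝ, (∀ i, M i ∈ R i) →
      d ≤ σ * detRow M := by
    obtain ⟨x0, -, hx0⟩ := (isCompact_Icc (a := (0 : Fin n → ℝ)) (b := 1)).exists_isMinOn
      ⟨0, ⟨le_rfl, zero_le_one⟩⟩ (hDc.const_mul σ |>.continuousOn)
    refine ⟨σ * D x0, hσ x0, fun M hM => ?_⟩
    choose s hs using hM
    obtain ⟨y, m, hy1, hy2⟩ := exists_reduce s
    have h1 : D y = detRow M := by
      simp only [hD]
      congr 1
      ext i j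
      rw [← hs i, hy1]
      simp only [hr, Pi.add_apply, iv]
      have hp : Function.Periodic (φ i j) 1 := hper i j
      have := hp.int_mul (m i) (y i)
      rw [mul_one] at this
      exact this.symm
    rw [← h1]
    exact hx0 hy2
  have hclos := det_bound_closure R σ d hdb
  set C : Fin n → Set (Fin n → ℝ) := fun i => closure (convexHull ℝ (R i)) with hC
  have hCcomp : ∀ i, IsCompact (C i) := fun i =>
    Metric.isCompact_of_isClosed_isBounded isClosed_closure
      ((isBounded_convexHull.mpr (hRcomp i).isBounded).closure)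
  have hCconv : ∀ i, Convex ℝ (C i) := fun i => (convex_convexHull ℝ (R i)).closure
  -- the compact convex set
  set K : Set (Fin n → ℝ) := (fun z : (Fin n → ℝ) × (Fin n → Fin n → ℝ) =>
    ∑ i, z.1 i • z.2 i) '' (stdSimplex ℝ (Fin n) ×ˢ univ.pi C) with hK
  have hKcomp : IsCompact K := by
    refine ((isCompact_stdSimplex ℝ (Fin n)).prod (isCompact_univ_pi hCcomp)).image ?_
    fun_prop
  have hKconv : Convex ℝ K := by
    rintro _ ⟨⟨l, ψ⟩, ⟨hl, hψ⟩, rfl⟩ _ ⟨⟨m, χ⟩, ⟨hm, hχ⟩, rfl⟩ a b ha hb hab
    simp only [mem_univ_pi] at hψ hχ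
    refine ⟨(fun i => a * l i + b * m i,
      fun i => if a * l i + b * m i = 0 then ψ i else
        (a * l i / (a * l i + b * m i)) • ψ i + (b * m i / (a * l i + b * m i)) • χ i),
      ⟨⟨fun i => ?_, ?_⟩, ?_⟩, ?_⟩
    · exact add_nonneg (mul_nonneg ha (hl.1 i)) (mul_nonneg hb (hm.1 i))
    · show ∑ i, (a * l i + b * m i) = 1
      rw [Finset.sum_add_distrib, ← Finset.mul_sum, ← Finset.mul_sum, hl.2, hm.2]
      linarith
    · simp only [mem_univ_pi]
      intro i
      split_ifs with h0
      · exact hψ i
      · have hp : 0 < a * l i + b * m i := lt_of_le_of_ne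
          (add_nonneg (mul_nonneg ha (hl.1 i)) (mul_nonneg hb (hm.1 i))) (Ne.symm h0)
        refine hCconv i (hψ i) (hχ i) (div_nonneg (mul_nonneg ha (hl.1 i)) hp.le)
          (div_nonneg (mul_nonneg hb (hm.1 i)) hp.le) ?_
        rw [← add_div, div_self h0]
    · simp only
      rw [Finset.smul_sum, Finset.smul_sum, ← Finset.sum_add_distrib]
      refine Finset.sum_congr rfl fun i _ => ?_
      split_ifs with h0
      · have h1 : a * l i = 0 := le_antisymm
          (by linarith [mul_nonneg hb (hm.1 i)]) (mul_nonneg ha (hl.1 i))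
        have h2 : b * m i = 0 := le_antisymm
          (by linarith [mul_nonneg ha (hl.1 i)]) (mul_nonneg hb (hm.1 i))
        rw [h0, zero_smul, smul_smul, smul_smul, h1, h2]; simp
      · rw [smul_add, smul_smul, smul_smul, smul_smul, smul_smul, mul_div_cancel₀ _ h0,
          mul_div_cancel₀ _ h0]
  have hK0 : (0 : Fin n → ℝ) ∉ K := by
    rintro ⟨⟨l, ψ⟩, ⟨hl, hψ⟩, hz⟩
    simp only [mem_univ_pi] at hψ hz
    have h1 := hclos ψ hψ
    have h2 : detRow ψ = 0 := by
      have hdep : ¬ LinearIndependent ℝ ψ := by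
        intro hli
        rw [Fintype.linearIndependent_iff] at hli
        have h3 := hli l hz
        have h4 := hl.2
        simp [h3] at h4
      exact Matrix.detRowAlternating.map_linearDependent ψ hdep
    rw [h2, mul_zero] at h1
    linarith
  obtain ⟨f, u, hu1, hu2⟩ := geometric_hahn_banach_point_closed hKconv hKcomp.isClosed hK0
  rw [map_zero] at hu1
  refine ⟨fun j => f (Pi.single j 1), fun i s => ?_⟩
  have hmem : r i s ∈ K := by
    refine ⟨(Pi.single i 1, Function.update (fun k => r k 0) i (r i s)),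
      ⟨single_mem_stdSimplex ℝ i, ?_⟩, ?_⟩
    · simp only [mem_univ_pi]
      intro k
      by_cases hk : k = i
      · subst hk
        rw [Function.update_self]
        exact subset_closure (subset_convexHull ℝ _ ⟨s, rfl⟩)
      · rw [Function.update_of_ne hk]
        exact subset_closure (subset_convexHull ℝ _ ⟨0, rfl⟩)
    · simp only
      rw [Finset.sum_eq_single i]
      · simp
      · intro k _ hk; simp [hk]
      · simp
  have h1 := hu2 _ hmem
  have h2 : f (r i s) = ∑ j, φ i j s * f (Pi.single j 1) := by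
    have h3 : r i s = ∑ j, φ i j s • (Pi.single j 1 : Fin n → ℝ) := by
      ext k
      simp [hr, Pi.single_apply]
    conv_lhs => rw [h3]
    simp
  rw [← h2]
  linarith

end Helper59.TG
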