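import Pool.Agent.Helper59.TG.Core5

namespace Helper59.TG

open Set Filter Topology MeasureTheory
open scoped NNReal

variable {n : ℕ}

/-- The Hamilton-Jacobi equation of `g` has the separated solutions
`∂S/∂x_i = q i (x i) a`, `a ∈ A`. -/
structure IsSeparated (g : (Fin n → ℝ) → (Fin n → ℝ) →L[ℝ] (Fin n → ℝ) →L[ℝ] ℝ)
    (A : Set (Fin n → ℝ)) (q : Fin n → ℝ → (Fin n → ℝ) → ℝ) (h : (Fin n → ℝ) → ℝ) : Prop where
  smooth : ∀ i, ContDiffOn ℝ 1 (fun z : ℝ × (Fin n → ℝ) => q i z.1 z.2) (univ ×ˢ A)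
  periodic : ∀ i, ∀ a ∈ A, ∀ s, q i (s + 1) a = q i s a
  energy : ∀ a ∈ A, ∀ x X, (∀ w, g x X w = ∑ i, q i (x i) a * w i) → g x X X / 2 = h a
  energy_pos : ∀ a ∈ A, 0 < h a
  nondeg : ∀ a ∈ A, ∀ x : Fin n → ℝ, ∀ b, (∀ i, fderiv ℝ (q i (x i)) a b = 0) → b = 0

lemma integral_add_int {E : Type*} [NormedAddCommGroup E] [NormedSpace ℝ E]
    {f : ℝ → E} (hf : Continuous f) (hper : ∀ s, f (s + 1) = f s) (x : ℝ) (m : ℤ) :
    ∫ s in (0 : ℝ)..(x + m), f s = (∫ s in (0 : ℝ)..x, f s) + (m : ℝ) • ∫ s in (0 : ℝ)..1, f s := by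
  have hp : Function.Periodic f 1 := hper
  have h1 := hp.intervalIntegral_add_zsmul_eq m x (fun t₁ t₂ => hf.intervalIntegrable t₁ t₂)
  have h2 := hp.intervalIntegral_add_eq x 0
  rw [zero_add] at h2
  rw [h2] at h1
  have h3 : x + m • (1 : ℝ) = x + m := by simp
  rw [h3] at h1
  rw [← intervalIntegral.integral_add_adjacent_intervals (hf.intervalIntegrable 0 x)
    (hf.intervalIntegrable x (x + m)), h1]
  congr 1
  exact (Int.cast_smul_eq_zsmul ℝ m _).symm

/-- The map `c ↦ dotL c`, linear. -/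
noncomputable def dotB : (Fin n → ℝ) →L[ℝ] (Fin n → ℝ) →L[ℝ] ℝ :=
  ∑ i, (ContinuousLinearMap.proj (R := ℝ) (φ := fun _ : Fin n => ℝ) i).smulRight
    (ContinuousLinearMap.proj i)

lemma dotB_apply (c w : Fin n → ℝ) : dotB c w = ∑ i, c i * w i := by
  simp [dotB]

section
variable {g : (Fin n → ℝ) → (Fin n → ℝ) →L[ℝ] (Fin n → ℝ) →L[ℝ] ℝ}
    {A : Set (Fin n → ℝ)} {q : Fin n → ℝ → (Fin n → ℝ) → ℝ} {h : (Fin n → ℝ) → ℝ}

lemma IsSeparated.hasFDerivAt_q (H : IsSeparated g A q h) (hA : IsOpen A) (i : Fin n) {a}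
    (ha : a ∈ A) (s : ℝ) : HasFDerivAt (q i s) (fderiv ℝ (q i s) a) a ∧
      fderiv ℝ (q i s) a = (fderiv ℝ (fun z : ℝ × (Fin n → ℝ) => q i z.1 z.2) (s, a)).comp
        (ContinuousLinearMap.inr ℝ ℝ (Fin n → ℝ)) := by
  have hopen : IsOpen ((univ : Set ℝ) ×ˢ A) := isOpen_univ.prod hA
  have h1 : HasFDerivAt (fun z : ℝ × (Fin n → ℝ) => q i z.1 z.2)
      (fderiv ℝ (fun z : ℝ × (Fin n → ℝ) => q i z.1 z.2) (s, a)) (s, a) :=
    (((H.smooth i).contDiffAt (hopen.mem_nhds ⟨mem_univ _, ha⟩)).differentiableAt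
      one_ne_zero).hasFDerivAt
  have h2 : HasFDerivAt (fun b : Fin n → ℝ => (s, b))
      (ContinuousLinearMap.inr ℝ ℝ (Fin n → ℝ)) a := hasFDerivAt_prodMk_right s a
  have h3 : HasFDerivAt (q i s) ((fderiv ℝ (fun z : ℝ × (Fin n → ℝ) => q i z.1 z.2)
      (s, a)).comp (ContinuousLinearMap.inr ℝ ℝ (Fin n → ℝ))) a :=
    HasFDerivAt.comp (f := fun b : Fin n → ℝ => (s, b)) a h1 h2
  exact ⟨h3.differentiableAt.hasFDerivAt, h3.fderiv⟩

lemma IsSeparated.continuousOn_dq (H : IsSeparated g A q h) (hA : IsOpen A) (i : Fin n) :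
    ContinuousOn (fun z : ℝ × (Fin n → ℝ) => fderiv ℝ (q i z.1) z.2) (univ ×ˢ A) := by
  have hopen : IsOpen ((univ : Set ℝ) ×ˢ A) := isOpen_univ.prod hA
  have h1 := (H.smooth i).continuousOn_fderiv_of_isOpen hopen le_rfl
  refine (h1.clm_comp (continuousOn_const (c := ContinuousLinearMap.inr ℝ ℝ (Fin n → ℝ)))).congr ?_
  intro z hz
  exact (H.hasFDerivAt_q hA i hz.2 z.1).2

lemma IsSeparated.continuous_q (H : IsSeparated g A q h) (_hA : IsOpen A) (i : Fin n) {a}
    (ha : a ∈ A) : Continuous (fun s => q i s a) := by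
  have h1 := (H.smooth i).continuousOn
  have h2 : Continuous (fun s : ℝ => (s, a)) := by fun_prop
  exact h1.comp_continuous h2 (fun s => ⟨mem_univ _, ha⟩)

lemma IsSeparated.continuous_dq (H : IsSeparated g A q h) (hA : IsOpen A) (i : Fin n) {a}
    (ha : a ∈ A) : Continuous (fun s => fderiv ℝ (q i s) a) := by
  have h1 := H.continuousOn_dq hA i
  have h2 : Continuous (fun s : ℝ => (s, a)) := by fun_prop
  exact h1.comp_continuous h2 (fun s => ⟨mem_univ _, ha⟩)

lemma IsSeparated.dq_periodic (H : IsSeparated g A q h) (hA : IsOpen A) (i : Fin n) {a}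
    (ha : a ∈ A) (s : ℝ) : fderiv ℝ (q i (s + 1)) a = fderiv ℝ (q i s) a := by
  apply Filter.EventuallyEq.fderiv_eq
  filter_upwards [hA.mem_nhds ha] with b hb using H.periodic i b hb s

/-- Derivative of the periods. -/
lemma IsSeparated.hasFDerivAt_integral (H : IsSeparated g A q h) (hA : IsOpen A) (i : Fin n) {a}
    (ha : a ∈ A) : HasFDerivAt (fun b => ∫ s in (0 : ℝ)..1, q i s b)
      (∫ s in (0 : ℝ)..1, fderiv ℝ (q i s) a) a := by
  obtain ⟨δ, hδ, hball⟩ := Metric.nhds_basis_closedBall.mem_iff.mp (hA.mem_nhds ha)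
  have hcomp : IsCompact (Icc (0 : ℝ) 1 ×ˢ Metric.closedBall a δ) :=
    isCompact_Icc.prod (isCompact_closedBall a δ)
  obtain ⟨C, hC⟩ := hcomp.exists_bound_of_continuousOn
    ((H.continuousOn_dq hA i).mono fun z hz => ⟨mem_univ _, hball hz.2⟩)
  refine intervalIntegral.hasFDerivAt_integral_of_dominated_of_fderiv_le
    (F := fun b s => q i s b) (F' := fun b s => fderiv ℝ (q i s) b)
    (bound := fun _ => C) (Metric.closedBall_mem_nhds a hδ) ?_ ?_ ?_ ?_ ?_ ?_
  · filter_upwards [hA.mem_nhds ha] with b hb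
    exact (H.continuous_q hA i hb).aestronglyMeasurable
  · exact (H.continuous_q hA i ha).intervalIntegrable 0 1
  · exact (H.continuous_dq hA i ha).aestronglyMeasurable
  · filter_upwards with s hs b hb
    rw [uIoc_of_le zero_le_one] at hs
    exact hC (s, b) ⟨⟨hs.1.le, hs.2⟩, hb⟩
  · exact intervalIntegrable_const
  · filter_upwards with s hs b hb
    exact (H.hasFDerivAt_q hA i (hball hb) s).1

/-- Separated solutions give the technical data. -/
theorem IsSeparated.core (hg : IsTorusMetric g) (hA : IsOpen A) (H : IsSeparated g A q h) :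
    Core g A (fun z => dotB (fun i => q i (z.1 i) z.2))
      (fun x a => ∑ i, ∫ s in (0 : ℝ)..(x i), q i s a)
      (fun x a => ∑ i, ∫ s in (0 : ℝ)..(x i), fderiv ℝ (q i s) a)
      (fun a i => ∫ s in (0 : ℝ)..1, q i s a)
      (fun a => ContinuousLinearMap.pi fun i => ∫ s in (0 : ℝ)..1, fderiv ℝ (q i s) a) h := by
  have hopen : IsOpen ((univ : Set (Fin n → ℝ)) ×ˢ A) := isOpen_univ.prod hA
  have hsm : ContDiffOn ℝ 1 (fun z : (Fin n → ℝ) × (Fin n → ℝ) =>
      dotB (fun i => q i (z.1 i) z.2)) (univ ×ˢ A) := by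
    refine (dotB (n := n)).contDiff.comp_contDiffOn ?_
    rw [contDiffOn_pi]
    intro i
    have h1 : ContDiff ℝ 1 (fun z : (Fin n → ℝ) × (Fin n → ℝ) => (z.1 i, z.2)) := by
      fun_prop
    exact (H.smooth i).comp h1.contDiffOn (fun z hz => ⟨mem_univ _, hz.2⟩)
  have hkey : ∀ a ∈ A, ∀ x, (fderiv ℝ (fun z : (Fin n → ℝ) × (Fin n → ℝ) =>
      dotB (fun i => q i (z.1 i) z.2)) (x, a)).comp (ContinuousLinearMap.inr ℝ _ _) =
      (dotB (n := n)).comp (ContinuousLinearMap.pi fun i => fderiv ℝ (q i (x i)) a) := by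
    intro a ha x
    have h1 : HasFDerivAt (fun z : (Fin n → ℝ) × (Fin n → ℝ) => dotB (fun i => q i (z.1 i) z.2))
        (fderiv ℝ (fun z : (Fin n → ℝ) × (Fin n → ℝ) => dotB (fun i => q i (z.1 i) z.2)) (x, a))
        (x, a) :=
      ((hsm.contDiffAt (hopen.mem_nhds ⟨mem_univ _, ha⟩)).differentiableAt
        one_ne_zero).hasFDerivAt
    have h2 : HasFDerivAt (fun b : Fin n → ℝ => (x, b))
        (ContinuousLinearMap.inr ℝ (Fin n → ℝ) (Fin n → ℝ)) a := hasFDerivAt_prodMk_right x a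
    have h3 := HasFDerivAt.comp (f := fun b : Fin n → ℝ => (x, b)) a h1 h2
    have h4 : HasFDerivAt (fun b : Fin n → ℝ => dotB (fun i => q i (x i) b))
        ((dotB (n := n)).comp (ContinuousLinearMap.pi fun i => fderiv ℝ (q i (x i)) a)) a := by
      refine (dotB (n := n)).hasFDerivAt.comp a ?_
      rw [hasFDerivAt_pi]
      intro i
      exact (H.hasFDerivAt_q hA i ha (x i)).1
    exact h3.unique h4
  refine
    { metric := hg
      isOpen := hA
      p_smooth := hsm
      S_deriv := ?_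
      S_per := ?_
      P_deriv := ?_
      P_inj := ?_
      energy := ?_
      energy_pos := H.energy_pos
      p_inj := ?_
      Φ_deriv := ?_
      Φ_per := ?_ }
  · intro a ha x
    have h1 : ∀ i ∈ (Finset.univ : Finset (Fin n)),
        HasFDerivAt (fun y : Fin n → ℝ => ∫ s in (0 : ℝ)..(y i), q i s a)
        (q i (x i) a • ContinuousLinearMap.proj (R := ℝ) (φ := fun _ : Fin n => ℝ) i) x := by
      intro i _
      have h2 : HasDerivAt (fun u => ∫ s in (0 : ℝ)..u, q i s a) (q i (x i) a) (x i) :=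
        (H.continuous_q hA i ha).integral_hasStrictDerivAt 0 (x i) |>.hasDerivAt
      exact h2.comp_hasFDerivAt x
        ((ContinuousLinearMap.proj (R := ℝ) (φ := fun _ : Fin n => ℝ) i).hasFDerivAt)
    refine (HasFDerivAt.fun_sum h1).congr_fderiv ?_
    ext1 w
    rw [dotB_apply]
    simp
  · intro a ha x m
    rw [← Finset.sum_add_distrib]
    refine Finset.sum_congr rfl fun i _ => ?_
    have h1 := integral_add_int (H.continuous_q hA i ha) (H.periodic i a ha) (x i) (m i)
    simp only [Pi.add_apply, iv]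
    rw [h1, smul_eq_mul, mul_comm]
  · intro a ha
    rw [hasFDerivAt_pi]
    intro i
    exact H.hasFDerivAt_integral hA i ha
  · intro a ha b hb
    -- zero of the integrand for every `i`
    have h1 : ∀ i, ∃ s, fderiv ℝ (q i s) a b = 0 := by
      intro i
      have h2 : (∫ s in (0 : ℝ)..1, fderiv ℝ (q i s) a) b = 0 := congrFun hb i
      have h3 : ∫ s in (0 : ℝ)..1, fderiv ℝ (q i s) a b = 0 :=
        (ContinuousLinearMap.intervalIntegral_apply
          ((H.continuous_dq hA i ha).intervalIntegrable (μ := volume) 0 1) b).symm.trans h2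
      have hc : Continuous (fun s => fderiv ℝ (q i s) a b) :=
        (H.continuous_dq hA i ha).clm_apply continuous_const
      by_contra hne
      push Not at hne
      have hne0 := hne 0
      rcases lt_or_gt_of_ne hne0 with hlt | hgt
      · have hneg : ∀ s, fderiv ℝ (q i s) a b < 0 := by
          intro s
          by_contra hs
          push Not at hs
          obtain ⟨t, ht⟩ := mem_range_of_exists_le_of_exists_ge hc ⟨0, hlt.le⟩ ⟨s, hs⟩
          exact hne t ht
        have h4 : ∫ s in (0 : ℝ)..1, (- fderiv ℝ (q i s) a b) > 0 :=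
          intervalIntegral.intervalIntegral_pos_of_pos
            (hc.neg.intervalIntegrable 0 1) (fun s => neg_pos.mpr (hneg s)) zero_lt_one
        rw [intervalIntegral.integral_neg, h3, neg_zero] at h4
        exact lt_irrefl _ h4
      · have hpos : ∀ s, 0 < fderiv ℝ (q i s) a b := by
          intro s
          by_contra hs
          push Not at hs
          obtain ⟨t, ht⟩ := mem_range_of_exists_le_of_exists_ge hc ⟨s, hs⟩ ⟨0, hgt.le⟩
          exact hne t ht
        have h4 : ∫ s in (0 : ℝ)..1, (fderiv ℝ (q i s) a b) > 0 :=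
          intervalIntegral.intervalIntegral_pos_of_pos
            (hc.intervalIntegrable 0 1) hpos zero_lt_one
        rw [h3] at h4
        exact lt_irrefl _ h4
    choose s hs using h1
    exact H.nondeg a ha s b hs
  · intro a ha x
    have h1 := H.energy a ha x ((g x).inverse (dotB (fun i => q i (x i) a))) (by
      intro w
      rw [hg.apply_inverse, dotB_apply])
    rw [hg.apply_inverse] at h1
    linarith
  · intro a ha x b hb
    refine H.nondeg a ha x b fun i => ?_
    have h1 : dotB (fun i => fderiv ℝ (q i (x i)) a b) = 0 := by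
      rw [← hb]
      have h2 := congrArg (fun f : (Fin n → ℝ) →L[ℝ] (Fin n → ℝ) →L[ℝ] ℝ => f b) (hkey a ha x)
      exact h2.symm
    have h3 := congrArg (fun f : (Fin n → ℝ) →L[ℝ] ℝ => f (Pi.single i 1)) h1
    simp only [dotB_apply, zero_apply] at h3
    rw [Finset.sum_eq_single i] at h3
    · simpa using h3
    · intro j _ hj; simp [hj]
    · simp
  · intro a ha x
    have h1 : ∀ i ∈ (Finset.univ : Finset (Fin n)),
        HasFDerivAt (fun y : Fin n → ℝ => ∫ s in (0 : ℝ)..(y i), fderiv ℝ (q i s) a)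
        (((1 : ℝ →L[ℝ] ℝ).smulRight (fderiv ℝ (q i (x i)) a)).comp
          (ContinuousLinearMap.proj (R := ℝ) (φ := fun _ : Fin n => ℝ) i)) x := by
      intro i _
      have h2 : HasDerivAt (fun u => ∫ s in (0 : ℝ)..u, fderiv ℝ (q i s) a)
          (fderiv ℝ (q i (x i)) a) (x i) :=
        (H.continuous_dq hA i ha).integral_hasStrictDerivAt 0 (x i) |>.hasDerivAt
      exact h2.hasFDerivAt.comp x
        ((ContinuousLinearMap.proj (R := ℝ) (φ := fun _ : Fin n => ℝ) i).hasFDerivAt)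
    refine (HasFDerivAt.fun_sum h1).congr_fderiv ?_
    rw [hkey a ha x]
    ext w b
    simp only [ContinuousLinearMap.flip_apply, ContinuousLinearMap.comp_apply, dotB_apply]
    simp [mul_comm]
  · intro a ha x m b
    have h1 : ∀ i, (∫ s in (0 : ℝ)..((x + iv m) i), fderiv ℝ (q i s) a) =
        (∫ s in (0 : ℝ)..(x i), fderiv ℝ (q i s) a) +
          (m i : ℝ) • ∫ s in (0 : ℝ)..1, fderiv ℝ (q i s) a := fun i =>
      integral_add_int (H.continuous_dq hA i ha) (H.dq_periodic hA i ha) (x i) (m i)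
    simp only [h1, Finset.sum_add_distrib, add_apply, sum_apply, smul_apply,
      ContinuousLinearMap.pi_apply, smul_eq_mul]
    congr 1
    exact Finset.sum_congr rfl fun i _ => mul_comm _ _

/-- Main theorem for separable metrics. -/
theorem IsSeparated.main (hg : IsTorusMetric g) (hA : IsOpen A) (H : IsSeparated g A q h)
    (hne : A.Nonempty) (x : Fin n → ℝ) :
    ∃ γ v : ℝ → (Fin n → ℝ), IsClosedGeodesic g γ v ∧ γ 0 = x := by
  obtain ⟨a, ha⟩ := hne
  obtain ⟨γ, v, h1, h2, -⟩ := (H.core hg hA).main ha x zero_lt_one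
  exact ⟨γ, v, h1, h2⟩

end

end Helper59.TG
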