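import Pool.Agent.Helper59.TG.Defs

/-! Project TG (MP_478427_gt): the definitions of the statement, in coordinates. -/

namespace Helper59.Torus

open Set

/-- `ℝⁿ`. -/
abbrev Vec (n : ℕ) := Fin n → ℝ

/-- The integer vector `m` as a real vector. -/
def intVec {n : ℕ} (m : Fin n → ℤ) : Vec n := fun i => (m i : ℝ)

/-- `g` is a `C¹` Riemannian metric `∑ g_ij dx_i dx_j` on the torus `ℝⁿ / ℤⁿ`. -/
structure IsMetric {n : ℕ} (g : Vec n → Fin n → Fin n → ℝ) : Prop where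
  smooth : ∀ i j, ContDiff ℝ 1 fun x => g x i j
  symm : ∀ x i j, g x i j = g x j i
  pos : ∀ x (v : Vec n), v ≠ 0 → 0 < ∑ i, ∑ j, g x i j * v i * v j
  periodic : ∀ x m, g (x + intVec m) = g x

/-- The `i`-th partial derivative of `f`. -/
noncomputable def pd {n : ℕ} (f : Vec n → ℝ) (i : Fin n) (x : Vec n) : ℝ :=
  fderiv ℝ f x (Pi.single i 1)

/-- `γ` is a geodesic of `g` and `v` is its velocity: `γ' = v` and the Euler-Lagrange equations
`d/dt ∑ j, g_ij v_j = (1/2) ∑ j k, ∂_i g_jk v_j v_k`. -/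
def IsGeodesic {n : ℕ} (g : Vec n → Fin n → Fin n → ℝ) (γ v : ℝ → Vec n) : Prop :=
  (∀ t i, HasDerivAt (fun s => γ s i) (v t i) t) ∧
  ∀ t i, HasDerivAt (fun s => ∑ j, g (γ s) i j * v s j)
    ((∑ j, ∑ k, pd (fun x => g x j k) i (γ t) * v t j * v t k) / 2) t

/-- `γ` is the lift to `ℝⁿ` of a closed (non-constant, periodic) geodesic of `ℝⁿ / ℤⁿ` with the
metric `g` and `v` is its velocity. -/
def IsClosedGeodesic {n : ℕ} (g : Vec n → Fin n → Fin n → ℝ) (γ v : ℝ → Vec n) : Prop :=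
  IsGeodesic g γ v ∧ v 0 ≠ 0 ∧ ∃ T > 0, ∃ m : Fin n → ℤ, ∀ t, γ (t + T) = γ t + intVec m

/-- A closed geodesic of `g` passes through `x`. -/
def ClosedGeodesicThrough {n : ℕ} (g : Vec n → Fin n → Fin n → ℝ) (x : Vec n) : Prop :=
  ∃ γ v : ℝ → Vec n, IsClosedGeodesic g γ v ∧ γ 0 = x

/-- A closed geodesic of `g` starts at `x` with velocity within `ε` of `X`. -/
def ClosedGeodesicNear {n : ℕ} (g : Vec n → Fin n → Fin n → ℝ) (x X : Vec n) (ε : ℝ) : Prop :=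
  ∃ γ v : ℝ → Vec n, IsClosedGeodesic g γ v ∧ γ 0 = x ∧ ∀ i, |v 0 i - X i| < ε

/-- The partial derivatives of `S (x, a)` in `x`, the momenta of the Lagrangian graph `a`. -/
noncomputable def mom {n : ℕ} (S : Vec n → Vec n → ℝ) (x a : Vec n) : Vec n :=
  fun i => pd (fun y => S y a) i x

/-- `X` is the `g`-gradient of `S (·, a)` at `x`. -/
def IsGradient {n : ℕ} (g : Vec n → Fin n → Fin n → ℝ) (S : Vec n → Vec n → ℝ)
    (x a X : Vec n) : Prop :=
  ∀ i, ∑ j, g x i j * X j = mom S x a i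

/-- The Jacobian determinant of `F` at `a`. -/
noncomputable def jac {n : ℕ} (F : Vec n → Vec n) (a : Vec n) : ℝ :=
  (Matrix.of fun i j => pd (fun c => F c i) j a).det

/-- `S (x, a)`, `a ∈ A`, is a `C²` complete integral of the Hamilton-Jacobi equation of `g`, with
periods `P a` and energy `h a`; mixed Hessian and Jacobian of the periods are nondegenerate. -/
structure IsCompleteIntegral {n : ℕ} (g : Vec n → Fin n → Fin n → ℝ) (A : Set (Vec n))
    (S : Vec n → Vec n → ℝ) (P : Vec n → Vec n) (h : Vec n → ℝ) : Prop where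
  smooth : ContDiffOn ℝ 2 (fun z : Vec n × Vec n => S z.1 z.2) (univ ×ˢ A)
  periods : ∀ a ∈ A, ∀ x m, S (x + intVec m) a = S x a + ∑ i, P a i * m i
  energy_pos : ∀ a ∈ A, 0 < h a
  hamiltonJacobi : ∀ a ∈ A, ∀ x, ∃ X, IsGradient g S x a X ∧ (∑ i, mom S x a i * X i) / 2 = h a
  hessian : ∀ a ∈ A, ∀ x, jac (mom S x) a ≠ 0
  periodsJacobian : ∀ a ∈ A, jac P a ≠ 0

/-- Staeckel metrics: `g = ∑ G_i dx_i²`, and for some periodic `φ i j` with
`det (φ i j (x i)) ≠ 0` the sum `∑ i, φ i j (x i) / G_i` is `1` for `j = j₀` and else `0`. -/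
def IsStackel {n : ℕ} (g : Vec n → Fin n → Fin n → ℝ) : Prop :=
  ∃ (φ : Fin n → Fin n → ℝ → ℝ) (j₀ : Fin n),
    (∀ i j, ContDiff ℝ 1 (φ i j)) ∧ (∀ i j s, φ i j (s + 1) = φ i j s) ∧
    (∀ x : Vec n, (Matrix.of fun i j => φ i j (x i)).det ≠ 0) ∧
    (∀ x i j, i ≠ j → g x i j = 0) ∧
    (∀ x j, ∑ i, φ i j (x i) / g x i i = if j = j₀ then 1 else 0)

/-- Liouville metrics `(f_1(x_1) + ... + f_n(x_n)) (dx_1² + ... + dx_n²)`. -/
def IsLiouville {n : ℕ} (g : Vec n → Fin n → Fin n → ℝ) : Prop :=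
  ∃ f : Fin n → ℝ → ℝ, (∀ i, ContDiff ℝ 1 (f i)) ∧ (∀ i s, f i (s + 1) = f i s) ∧
    ∀ x i j, g x i j = if i = j then ∑ k, f k (x k) else 0

/-- Metrics that depend on one coordinate only. -/
def IsOneCoordinate {n : ℕ} (g : Vec n → Fin n → Fin n → ℝ) : Prop :=
  ∃ i₀ : Fin n, ∀ x y, x i₀ = y i₀ → g x = g y

end Helper59.Torus
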